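import Pool.Agent.P.MP_848074_co.PS

open Finset
open scoped Classical

namespace RCS

variable {V : Type*}

/-- vertices reached from `v` inside `Ω` in at most `i` steps -/
noncomputable def ball (G : SimpleGraph V) (Ω : Finset V) (v : V) (i : ℕ) : Finset V :=
  Ω.filter (fun y => ∃ T, T ⊆ Ω ∧ PS G v y T ∧ T.card ≤ i + 1)

variable {G : SimpleGraph V}

theorem mem_ball {Ω : Finset V} {v y : V} {i : ℕ} :
    y ∈ ball G Ω v i ↔ ∃ T, T ⊆ Ω ∧ PS G v y T ∧ T.card ≤ i + 1 := by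
  unfold ball
  rw [mem_filter]
  exact ⟨fun h => h.2, fun h => ⟨by obtain ⟨T, h1, h2, -⟩ := h; exact h1 h2.right_mem, h⟩⟩

theorem ball_subset {Ω : Finset V} {v : V} {i : ℕ} : ball G Ω v i ⊆ Ω := filter_subset _ _

theorem self_mem_ball {Ω : Finset V} {v : V} (hv : v ∈ Ω) (i : ℕ) : v ∈ ball G Ω v i :=
  mem_ball.2 ⟨{v}, by simpa using hv, PS.single v, by simp⟩

theorem ball_mono {Ω : Finset V} {v : V} {i j : ℕ} (h : i ≤ j) : ball G Ω v i ⊆ ball G Ω v j := by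
  intro y hy
  obtain ⟨T, h1, h2, h3⟩ := mem_ball.1 hy
  exact mem_ball.2 ⟨T, h1, h2, by omega⟩

theorem ball_trans {Ω : Finset V} {v z y : V} {i j : ℕ} (h1 : z ∈ ball G Ω v i)
    (h2 : y ∈ ball G Ω z j) : y ∈ ball G Ω v (i + j) := by
  obtain ⟨T1, a1, b1, c1⟩ := mem_ball.1 h1
  obtain ⟨T2, a2, b2, c2⟩ := mem_ball.1 h2
  obtain ⟨T, a, b, c⟩ := b1.trans b2
  exact mem_ball.2 ⟨T, a.trans (union_subset a1 a2), b, by omega⟩

theorem ball_step {Ω : Finset V} {v z y : V} {i : ℕ} (h1 : z ∈ ball G Ω v i) (hy : y ∈ Ω)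
    (ha : G.Adj z y) : y ∈ ball G Ω v (i + 1) := by
  refine ball_trans h1 (mem_ball.2 ⟨{z, y}, ?_, PS.edge ha, card_le_two⟩)
  exact insert_subset (ball_subset h1) (by simpa using hy)

theorem ball_path {Ω : Finset V} {v y : V} {i : ℕ} (h : y ∈ ball G Ω v i) :
    ∃ T, T ⊆ ball G Ω v i ∧ PS G v y T ∧ T.card ≤ i + 1 := by
  obtain ⟨T, a, b, c⟩ := mem_ball.1 h
  refine ⟨T, fun z hz => ?_, b, c⟩
  obtain ⟨T1, hs, hp⟩ := b.sub hz
  exact mem_ball.2 ⟨T1, hs.trans a, hp, (card_le_card hs).trans c⟩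

theorem ball_of_subset {Ω Ω' : Finset V} {v : V} {i : ℕ} (h : ball G Ω v i ⊆ Ω') :
    ball G Ω v i ⊆ ball G Ω' v i := by
  intro y hy
  obtain ⟨T, a, b, c⟩ := ball_path hy
  exact mem_ball.2 ⟨T, a.trans h, b, c⟩

theorem deg_ball {Ω : Finset V} {v z : V} {i : ℕ} (h1 : z ∈ ball G Ω v i) :
    deg G Ω z ≤ deg G (ball G Ω v (i + 1)) z := by
  apply card_le_card
  intro w hw
  rw [mem_filter] at hw ⊢
  exact ⟨ball_step h1 hw.1 hw.2, hw.2⟩

theorem growth_pow (g : ℕ → ℕ) (k : ℕ) : ∀ n, (∀ a < n, (k + 1) * g a ≤ k * g (a + 1)) →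
    (k + 1) ^ n * g 0 ≤ k ^ n * g n := by
  intro n
  induction n with
  | zero => simp
  | succ n ih =>
    intro h
    have h1 := ih (fun a ha => h a (by omega))
    have h2 := h n (by omega)
    calc (k + 1) ^ (n + 1) * g 0 = (k + 1) * ((k + 1) ^ n * g 0) := by ring
      _ ≤ (k + 1) * (k ^ n * g n) := Nat.mul_le_mul_left _ h1
      _ = k ^ n * ((k + 1) * g n) := by ring
      _ ≤ k ^ n * (k * g (n + 1)) := Nat.mul_le_mul_left _ h2
      _ = _ := by ring

theorem bern (k : ℕ) (hk : 1 ≤ k) : 2 * k ^ k ≤ (k + 1) ^ k := by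
  have h : ∀ n, k ^ (n + 1) + (n + 1) * k ^ n ≤ (k + 1) ^ (n + 1) := by
    intro n
    induction n with
    | zero => simp
    | succ n ih =>
      calc k ^ (n + 1 + 1) + (n + 1 + 1) * k ^ (n + 1)
          ≤ (k + 1) * (k ^ (n + 1) + (n + 1) * k ^ n) := by
            have : (k + 1) * (k ^ (n + 1) + (n + 1) * k ^ n)
              = k ^ (n + 1 + 1) + (n + 1 + 1) * k ^ (n + 1) + (n + 1) * k ^ n := by ring
            omega
        _ ≤ (k + 1) * (k + 1) ^ (n + 1) := Nat.mul_le_mul_left _ ih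
        _ = _ := by ring
  obtain ⟨n, rfl⟩ : ∃ n, k = n + 1 := ⟨k - 1, by omega⟩
  have := h n
  have e : (n + 1) * (n + 1) ^ n = (n + 1) ^ (n + 1) := by ring
  omega

theorem growth_two (g : ℕ → ℕ) (k j : ℕ) (hk : 1 ≤ k)
    (h : ∀ a < k * j, (k + 1) * g a ≤ k * g (a + 1)) : 2 ^ j * g 0 ≤ g (k * j) := by
  have h1 := growth_pow g k (k * j) h
  have h2 : 2 ^ j * k ^ (k * j) ≤ (k + 1) ^ (k * j) := by
    rw [pow_mul, pow_mul, ← mul_pow]
    exact Nat.pow_le_pow_left (bern k hk) j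
  have h3 : k ^ (k * j) * (2 ^ j * g 0) ≤ k ^ (k * j) * g (k * j) := by
    calc k ^ (k * j) * (2 ^ j * g 0) = (2 ^ j * k ^ (k * j)) * g 0 := by ring
      _ ≤ (k + 1) ^ (k * j) * g 0 := Nat.mul_le_mul_right _ h2
      _ ≤ _ := h1
  exact Nat.le_of_mul_le_mul_left h3 (by positivity)

theorem slow_growth {Ω : Finset V} {v : V} (hv : v ∈ Ω) {b : ℕ} (hb : Ω.card ≤ 2 ^ b) (k : ℕ)
    (hk : 1 ≤ k) : ∃ a < k * (b + 1),
      k * (ball G Ω v (a + 1)).card ≤ (k + 1) * (ball G Ω v a).card := by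
  by_contra hcon
  push Not at hcon
  have h := growth_two (fun a => (ball G Ω v a).card) k (b + 1) hk (fun a ha => (hcon a ha).le)
  have h0 : 1 ≤ (ball G Ω v 0).card := card_pos.2 ⟨v, self_mem_ball hv 0⟩
  have h1 : (ball G Ω v (k * (b + 1))).card ≤ 2 ^ b := (card_le_card ball_subset).trans hb
  have h2 : 2 ^ (b + 1) * 1 ≤ 2 ^ (b + 1) * (ball G Ω v 0).card := Nat.mul_le_mul_left _ h0
  have h3 : 0 < 2 ^ b := by positivity
  rw [pow_succ] at h2 h
  omega

/-- outer boundary of `S` in `B` -/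
noncomputable def bd (G : SimpleGraph V) (B S : Finset V) : Finset V :=
  (B \ S).filter (fun w => ∃ s ∈ S, G.Adj s w)

/-- minimum degree `d` and short connections avoiding any `u` vertices -/
def Ex (G : SimpleGraph V) (B : Finset V) (d u D : ℕ) : Prop :=
  B.Nonempty ∧ (∀ v ∈ B, d ≤ deg G B v) ∧
    ∀ U : Finset V, U.card ≤ u → ∀ x ∈ B \ U, ∀ y ∈ B \ U,
      ∃ T, T ⊆ B \ U ∧ PS G x y T ∧ T.card ≤ D

theorem big_ball {B : Finset V} {d h b : ℕ} (hh : 1 ≤ h) (hb : B.card ≤ 2 ^ b)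
    (hd : ∀ v ∈ B, d ≤ deg G B v)
    (hx : ∀ S ⊆ B, 2 * S.card ≤ B.card → S.card ≤ h * (bd G B S).card)
    {U : Finset V} (hU : 4 * h * U.card ≤ d) {x : V} (hxU : x ∈ B \ U) :
    B.card < 2 * (ball G (B \ U) x (2 * h * (b + 1) + 1)).card := by
  by_contra hcon
  push Not at hcon
  have hstep : ∀ a < 2 * h * (b + 1), (2 * h + 1) * (ball G (B \ U) x (a + 1)).card
      ≤ 2 * h * (ball G (B \ U) x (a + 1 + 1)).card := by
    intro a ha
    set S := ball G (B \ U) x (a + 1) with hS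
    have hSB : S ⊆ B := ball_subset.trans sdiff_subset
    have h1 : 2 * S.card ≤ B.card := by
      have : S.card ≤ (ball G (B \ U) x (2 * h * (b + 1) + 1)).card :=
        card_le_card (ball_mono (by omega))
      omega
    have h2 := hx S hSB h1
    have h3 : d ≤ S.card + U.card := by
      have a1 := hd x (mem_sdiff.1 hxU).1
      have a2 := deg_le_sdiff (G := G) B U x
      have a3 := deg_ball (G := G) (self_mem_ball hxU a)
      have a4 := deg_le (G := G) (ball G (B \ U) x (a + 1)) x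
      rw [hS]
      omega
    have h4 : S ∪ (bd G B S \ U) ⊆ ball G (B \ U) x (a + 1 + 1) := by
      intro w hw
      rcases mem_union.1 hw with hw | hw
      · exact ball_mono (by omega) hw
      · rw [mem_sdiff, bd, mem_filter, mem_sdiff] at hw
        obtain ⟨⟨⟨w1, -⟩, s, hs, ha⟩, w2⟩ := hw
        exact ball_step hs (mem_sdiff.2 ⟨w1, w2⟩) ha
    have h5 : Disjoint S (bd G B S \ U) := by
      rw [disjoint_right]
      intro w hw
      rw [mem_sdiff, bd, mem_filter, mem_sdiff] at hw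
      exact hw.1.1.2
    have h6 := card_le_card h4
    rw [card_union_of_disjoint h5] at h6
    have h7 : (bd G B S).card ≤ (bd G B S \ U).card + U.card := card_le_card_sdiff_add_card
    have h8 : 2 * h * (S.card + (bd G B S \ U).card) ≤ 2 * h * (ball G (B \ U) x (a + 1 + 1)).card :=
      Nat.mul_le_mul_left _ h6
    have h9 : h * (bd G B S).card ≤ h * ((bd G B S \ U).card + U.card) := Nat.mul_le_mul_left _ h7
    have h10 : U.card ≤ h * U.card := Nat.le_mul_of_pos_left _ hh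
    nlinarith
  have h := growth_two (fun a => (ball G (B \ U) x (a + 1)).card) (2 * h) (b + 1) (by omega) hstep
  have h0 : 1 ≤ (ball G (B \ U) x (0 + 1)).card := card_pos.2 ⟨x, self_mem_ball hxU _⟩
  have h2 : 2 ^ (b + 1) * 1 ≤ 2 ^ (b + 1) * (ball G (B \ U) x (0 + 1)).card :=
    Nat.mul_le_mul_left _ h0
  have h3 : 0 < 2 ^ b := by positivity
  rw [pow_succ] at h2 h
  omega

theorem ex_of_expand {B : Finset V} {d h b u : ℕ} (hne : B.Nonempty) (hh : 1 ≤ h)
    (hb : B.card ≤ 2 ^ b) (hd : ∀ v ∈ B, d ≤ deg G B v)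
    (hx : ∀ S ⊆ B, 2 * S.card ≤ B.card → S.card ≤ h * (bd G B S).card)
    (hu : 4 * h * u ≤ d) : Ex G B d u (4 * h * (b + 1) + 3) := by
  refine ⟨hne, hd, fun U hU x hxU y hyU => ?_⟩
  have hU' : 4 * h * U.card ≤ d := (Nat.mul_le_mul_left _ hU).trans hu
  have h1 := big_ball hh hb hd hx hU' hxU
  have h2 := big_ball hh hb hd hx hU' hyU
  have h3 : ¬ Disjoint (ball G (B \ U) x (2 * h * (b + 1) + 1))
      (ball G (B \ U) y (2 * h * (b + 1) + 1)) := by
    intro hd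
    have := card_le_card (union_subset (ball_subset.trans sdiff_subset :
      ball G (B \ U) x (2 * h * (b + 1) + 1) ⊆ B) (ball_subset.trans sdiff_subset :
      ball G (B \ U) y (2 * h * (b + 1) + 1) ⊆ B))
    rw [card_union_of_disjoint hd] at this
    omega
  obtain ⟨z, hz1, hz2⟩ := not_disjoint_iff.1 h3
  obtain ⟨T1, a1, b1, c1⟩ := mem_ball.1 hz1
  obtain ⟨T2, a2, b2, c2⟩ := mem_ball.1 hz2
  obtain ⟨T, a, b', c⟩ := b1.trans b2.symm
  refine ⟨T, a.trans (union_subset a1 a2), b', ?_⟩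
  have : 4 * h * (b + 1) = 2 * (2 * h * (b + 1)) := by ring
  omega

end RCS
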