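import Pool.Agent.P.MP_848074_co.Grow

open Finset
open scoped Classical

namespace RCS

variable {V : Type*} {G : SimpleGraph V}

/-- an almost complete subgraph on almost `m` vertices -/
def Core (G : SimpleGraph V) (m μ : ℕ) (Q : Finset V) : Prop :=
  Q.Nonempty ∧ ∀ q ∈ Q, m ≤ deg G Q q + μ ∧ Q.card ≤ deg G Q q + μ

theorem Core.mono {m μ μ' : ℕ} {Q : Finset V} (h : Core G m μ Q) (hμ : μ ≤ μ') :
    Core G m μ' Q :=
  ⟨h.1, fun q hq => by have := h.2 q hq; omega⟩

theorem Core.card_ge {m μ : ℕ} {Q : Finset V} (h : Core G m μ Q) : m + 1 ≤ Q.card + μ := by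
  obtain ⟨q, hq⟩ := h.1
  have := h.2 q hq
  have := deg_lt_card (G := G) hq
  omega

theorem deficit (δ a m : ℕ) {B X : Finset V} (hX : X ⊆ B)
    (h : ∀ v ∈ X, a * deg G B v + m ≤ a * δ) : a * ft G δ B + X.card * m ≤ a * δ * B.card := by
  have h1 : ∑ v ∈ B, (a * min (deg G B v) δ + if v ∈ X then m else 0) ≤ ∑ v ∈ B, a * δ := by
    apply sum_le_sum
    intro v _
    split_ifs with hv
    · have := h v hv
      have : a * min (deg G B v) δ ≤ a * deg G B v := Nat.mul_le_mul_left _ (min_le_left _ _)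
      omega
    · exact Nat.mul_le_mul_left _ (min_le_right _ _)
  rw [sum_add_distrib, ← mul_sum, sum_ite_mem, inter_eq_right.2 hX, sum_const, sum_const,
    smul_eq_mul, smul_eq_mul, mul_comm B.card] at h1
  exact h1

theorem Par.core {m b h d u hi g2 k D : ℕ} (P : Par m b h d u hi g2 k D) (hm : Even m)
    (hC : ¬ HasC G m) {A : Finset V} (hne : A.Nonempty) (hA : A.card ≤ 2 ^ b) {δ μ : ℕ}
    (h1 : 9 * m ≤ 10 * δ) (h2 : δ ≤ m) (hμ : 203 * m ≤ 200 * μ + 200 * δ)
    (hav : 99999 * δ * A.card ≤ 100000 * ft G δ A) : ∃ Q ⊆ A, Core G m μ Q := by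
  have a1 := P.hd
  obtain ⟨B, hB, hE, hB2⟩ := expander (G := G) δ h b d u P.h2 (by have := P.hb; omega) hne hA
    (by
      have : 128 * d * A.card ≤ m * A.card := Nat.mul_le_mul_right _ a1
      have : 9 * m * A.card ≤ 10 * δ * A.card := Nat.mul_le_mul_right _ h1
      nlinarith) P.hu
  rw [← P.hD] at hE
  have hm0 : 0 < m := by
    have := P.hu; have := P.hhi; have := P.h2
    have : 4 * 2 * u ≤ 4 * h * u := Nat.mul_le_mul_right _ (by omega)
    omega
  have hft : 49999 * δ * B.card ≤ 50000 * ft G δ B := by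
    have hA0 : (0 : ℝ) < A.card := by exact_mod_cast hne.card_pos
    have hh0 : (0 : ℝ) < h := by exact_mod_cast (by have := P.h2; omega : 0 < h)
    have b1 : (99999 / 100000 : ℝ) * δ ≤ av G δ A := by
      unfold av
      rw [le_div_iff₀ hA0]
      have : (99999 * δ * A.card : ℝ) ≤ 100000 * ft G δ A := by exact_mod_cast hav
      linarith
    have b2 : (3 * b : ℝ) / h ≤ 1 / 100000 := by
      rw [div_le_iff₀ hh0]
      have : (300000 * b : ℝ) ≤ h := by exact_mod_cast P.hb
      linarith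
    have b3 : (0 : ℝ) ≤ δ := by positivity
    have b4 : (49999 / 50000 : ℝ) * δ ≤ av G δ B := by nlinarith
    have b5 := ft_eq (G := G) δ hE.1
    have b6 : (0 : ℝ) ≤ B.card := by positivity
    have : (49999 * δ * B.card : ℝ) ≤ 50000 * ft G δ B := by
      rw [b5]; nlinarith
    exact_mod_cast this
  have hδB : δ * B.card ≤ m * B.card := Nat.mul_le_mul_right _ h2
  have hlow : 5000 * (B.filter (fun v => 5 * deg G B v < 4 * m)).card ≤ B.card := by
    have := deficit (G := G) δ 10 m (filter_subset (fun v => 5 * deg G B v < 4 * m) B)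
      (fun v hv => by have := (mem_filter.1 hv).2; omega)
    apply Nat.le_of_mul_le_mul_left _ hm0
    nlinarith
  have hsmall : 200 * B.card < 201 * m := by
    by_contra hcon
    exact hC (P.grow hm hE ((card_le_card hB).trans hA) (by omega))
  set N := B.filter (fun v => 200 * deg G B v + m ≤ 200 * δ) with hN
  have hNc : 250 * N.card ≤ B.card := by
    have := deficit (G := G) δ 200 m (filter_subset (fun v => 200 * deg G B v + m ≤ 200 * δ) B)
      (fun v hv => (mem_filter.1 hv).2)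
    rw [← hN] at this
    apply Nat.le_of_mul_le_mul_left _ hm0
    nlinarith
  have hBp := hE.1.card_pos
  have hc : B.card ≤ (B \ N).card + N.card := card_le_card_sdiff_add_card
  refine ⟨B \ N, sdiff_subset.trans hB, card_pos.1 (by omega), fun q hq => ?_⟩
  have q1 := mem_sdiff.1 hq
  have q2 : ¬ 200 * deg G B q + m ≤ 200 * δ := fun h => q1.2 (mem_filter.2 ⟨q1.1, h⟩)
  have q3 := deg_le_sdiff (G := G) B N q
  have q4 : (B \ N).card ≤ B.card := card_le_card sdiff_subset
  omega

theorem Par.core_near {m b h d u hi g2 k D : ℕ} (P : Par m b h d u hi g2 k D) (hm : Even m)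
    (hC : ¬ HasC G m) {Ω : Finset V} {v : V} (hv : v ∈ Ω) (hΩ : Ω.card ≤ 2 ^ b) {δ μ : ℕ}
    (h1 : 9 * m ≤ 10 * δ) (h2 : δ ≤ m) (hμ : 203 * m ≤ 200 * μ + 200 * δ)
    (hdeg : ∀ y ∈ ball G Ω v (100000 * (b + 1)), δ ≤ deg G Ω y) :
    ∃ Q ⊆ ball G Ω v (100000 * (b + 1)), Core G m μ Q := by
  obtain ⟨a, ha, hs⟩ := slow_growth (G := G) hv hΩ 100000 (by norm_num)
  obtain ⟨Q, hQ, hc⟩ := P.core hm hC (A := ball G Ω v (a + 1)) ⟨v, self_mem_ball hv _⟩
    ((card_le_card ball_subset).trans hΩ) h1 h2 hμ (by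
      have e1 : (ball G Ω v a).card * δ ≤ ft G δ (ball G Ω v (a + 1)) := by
        have := card_nsmul_le_sum (ball G Ω v a) (fun y => min (deg G (ball G Ω v (a + 1)) y) δ) δ
          (fun y hy => le_min ((hdeg y (ball_mono ha.le hy)).trans (deg_ball hy)) le_rfl)
        rw [smul_eq_mul] at this
        exact this.trans (sum_le_sum_of_subset (ball_mono (by omega)))
      have e2 : δ * (100000 * (ball G Ω v (a + 1)).card) ≤ δ * ((100000 + 1) * (ball G Ω v a).card) :=
        Nat.mul_le_mul_left _ hs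
      nlinarith)
  exact ⟨Q, hQ.trans (ball_mono (by omega)), hc⟩

theorem Core.common {m μ : ℕ} {Q : Finset V} (h : Core G m μ Q) {a b : V} (ha : a ∈ Q)
    (hb : b ∈ Q) (U : Finset V) (hU : U.card + 2 * μ < m) :
    ∃ c ∈ Q, c ∉ U ∧ G.Adj a c ∧ G.Adj b c := by
  have h1 := card_union_add_card_inter (Q.filter (fun w => G.Adj a w)) (Q.filter (fun w => G.Adj b w))
  have h2 : (Q.filter (fun w => G.Adj a w) ∪ Q.filter (fun w => G.Adj b w)).card ≤ Q.card :=
    card_le_card (union_subset (filter_subset _ _) (filter_subset _ _))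
  have h3 := h.2 a ha
  have h4 := h.2 b hb
  unfold deg at h3 h4
  obtain ⟨c, hc, hcU⟩ := exists_mem_notMem_of_card_lt_card (s := U)
    (t := Q.filter (fun w => G.Adj a w) ∩ Q.filter (fun w => G.Adj b w)) (by omega)
  rw [mem_inter, mem_filter, mem_filter] at hc
  exact ⟨c, hc.1.1, hcU, hc.1.2, hc.2.2⟩

theorem Core.pan {m μ : ℕ} {Q : Finset V} (h : Core G m μ Q) {x y : V} {U : Finset V}
    (hx : x ∈ Q \ U) (hy : y ∈ Q \ U) (hxy : x ≠ y) {n : ℕ} (h3 : 3 ≤ n)
    (hn : n + U.card + 2 * μ ≤ m) : ∃ T, T ⊆ Q \ U ∧ PS G x y T ∧ T.card = n := by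
  rw [mem_sdiff] at hx hy
  have hc := card_insert_le y U
  obtain ⟨z, T, t1, t2, t3⟩ := greedy (G := G) (B := Q) (d := m - μ)
    (fun v hv => by have := h.2 v hv; omega) (insert y U) hx.1 (by simp [hxy, hx.2]) (n - 2)
    (by omega) (by omega)
  have hc2 := card_union_le (insert y U) T
  obtain ⟨c, c1, c2, c3, c4⟩ := h.common (mem_sdiff.1 (t2 t1.right_mem)).1 hy.1
    (insert y U ∪ T) (by omega)
  simp only [mem_union, mem_insert, not_or] at c2
  have hyT : y ∉ T := fun h => (mem_sdiff.1 (t2 h)).2 (mem_insert_self _ _)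
  have hy' : y ∉ insert c T := by simp [hyT, Ne.symm c2.1.1]
  refine ⟨_, ?_, (t1.snoc c3 c2.2).snoc c4.symm hy', ?_⟩
  · refine insert_subset (mem_sdiff.2 hy) (insert_subset (mem_sdiff.2 ⟨c1, c2.1.2⟩) (t2.trans ?_))
    exact sdiff_subset_sdiff (Subset.refl _) (subset_insert _ _)
  · rw [card_insert_of_notMem hy', card_insert_of_notMem c2.2]; omega

theorem Core.fill {m μ : ℕ} {Q : Finset V} (h : Core G m μ Q) {x y : V} :
    ∀ (j : ℕ) (T : Finset V), PS G x y T → T.card + j = m → m ≤ (T ∪ Q).card →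
      2 * μ + (T \ Q).card + 2 ≤ (T ∩ Q).card → ∃ T', PS G x y T' ∧ T'.card = m := by
  intro j
  induction j with
  | zero => intro T hp h1 _ _; exact ⟨T, hp, h1⟩
  | succ j ih =>
    intro T hp h1 h2 h3
    obtain ⟨w, hw, hwT⟩ := exists_mem_notMem_of_card_lt_card (s := T) (t := T ∪ Q) (by omega)
    have hwQ : w ∈ Q := (mem_union.1 hw).resolve_left hwT
    have a1 := (h.2 w hwQ).2
    have a2 : deg G Q w ≤ deg G (T ∩ Q) w + (Q \ T).card := by
      have := deg_le_sdiff (G := G) Q (Q \ T) w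
      rwa [sdiff_sdiff_self_left, inter_comm] at this
    have a3 : deg G (T ∩ Q) w ≤ deg G T w := deg_mono inter_subset_left w
    have a4 := card_sdiff_add_card_inter Q T
    have a5 := card_sdiff_add_card_inter T Q
    rw [inter_comm] at a4
    refine ih (insert w T) (hp.ins hwT (by omega)) (by rw [card_insert_of_notMem hwT]; omega)
      (h2.trans (card_le_card (union_subset_union (subset_insert _ _) (Subset.refl _)))) ?_
    rw [insert_sdiff_of_mem _ hwQ]
    have : (T ∩ Q).card ≤ (insert w T ∩ Q).card :=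
      card_le_card (inter_subset_inter (subset_insert _ _) (Subset.refl _))
    omega

theorem Core.close {m μ : ℕ} {Q : Finset V} (h : Core G m μ Q) {x y : V} {T : Finset V}
    (hp : PS G x y T) (hx : x ∈ Q) (hy : y ∈ Q) (hxy : x ≠ y) (h1 : m ≤ (T ∪ Q).card)
    (h2 : 4 * μ + 2 * T.card + 3 ≤ m) : HasC G m := by
  have a0 : (T \ Q).card ≤ T.card := card_le_card sdiff_subset
  have a1 : ((T.erase x).erase y).card ≤ T.card :=
    card_le_card ((erase_subset _ _).trans (erase_subset _ _))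
  obtain ⟨T2, t1, t2, t3⟩ := h.pan (x := y) (y := x) (U := (T.erase x).erase y) (by simp [hy])
    (by simp [hx]) hxy.symm (n := 2 * μ + (T \ Q).card + 3) (by omega) (by omega)
  obtain ⟨x', y', p1, p2, p3⟩ := hp.close t2 hxy (by
    intro a ha ha'
    have := (mem_sdiff.1 (t1 ha')).2
    simp only [mem_erase] at this
    tauto)
  have hT2 : T2 ⊆ Q := t1.trans sdiff_subset
  obtain ⟨T', q1, q2⟩ := h.fill (m - (T ∪ T2).card) (T ∪ T2) p1 (by omega)
    (h1.trans (card_le_card (union_subset_union subset_union_left (Subset.refl _)))) (by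
      have b1 : (T ∪ T2) \ Q = T \ Q := by
        rw [union_sdiff_distrib, sdiff_eq_empty_iff_subset.2 hT2, union_empty]
      have b2 : T2.card ≤ ((T ∪ T2) ∩ Q).card :=
        card_le_card (subset_inter subset_union_right hT2)
      rw [b1]; omega)
  exact ⟨x', y', T', q1, p2, q2⟩

theorem two_cores {m μ : ℕ} {Q1 Q2 : Finset V} (h1 : Core G m μ Q1) (h2 : Core G m μ Q2)
    (hd : Disjoint Q1 Q2) {a1 b1 a2 b2 : V} {L1 L2 : Finset V} (p1 : PS G a1 b1 L1)
    (p2 : PS G a2 b2 L2) (ha1 : a1 ∈ Q1) (ha2 : a2 ∈ Q1) (hb1 : b1 ∈ Q2) (hb2 : b2 ∈ Q2)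
    (hL : Disjoint L1 L2) (hm : 5 + L1.card + L2.card + 4 * μ ≤ m) : HasC G m := by
  have hL' := disjoint_left.1 hL
  have hd' := disjoint_left.1 hd
  have hab : a1 ≠ b1 := fun h => hd' ha1 (h ▸ hb1)
  have haa : a2 ≠ a1 := fun h => hL' p1.left_mem (h ▸ p2.left_mem)
  have hbb : b1 ≠ b2 := fun h => hL' p1.right_mem (h ▸ p2.right_mem)
  have hcu := card_union_le L1 L2
  obtain ⟨T2, s1, s2, s3⟩ := h2.pan (x := b1) (y := b2) (U := ((L1 ∪ L2).erase b1).erase b2)
    (by simp [hb1]) (by simp [hb2]) hbb (n := (m + 4 - L1.card - L2.card) / 2) (by omega) (by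
      have : (((L1 ∪ L2).erase b1).erase b2).card ≤ (L1 ∪ L2).card :=
        card_le_card ((erase_subset _ _).trans (erase_subset _ _))
      omega)
  obtain ⟨T1, r1, r2, r3⟩ := h1.pan (x := a2) (y := a1) (U := ((L1 ∪ L2).erase a1).erase a2)
    (by simp [ha2]) (by simp [ha1]) haa (n := (m + 5 - L1.card - L2.card) / 2) (by omega) (by
      have : (((L1 ∪ L2).erase a1).erase a2).card ≤ (L1 ∪ L2).card :=
        card_le_card ((erase_subset _ _).trans (erase_subset _ _))
      omega)
  have hT2 : ∀ z ∈ T2, z ∈ Q2 ∧ (z ∈ L1 → z = b1) ∧ (z ∈ L2 → z = b2) := by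
    intro z hz
    have := mem_sdiff.1 (s1 hz)
    simp only [mem_erase, mem_union] at this
    refine ⟨this.1, fun h => ?_, fun h => ?_⟩
    · have : z ≠ b2 := fun e => hL' h (e ▸ p2.right_mem)
      tauto
    · have : z ≠ b1 := fun e => hL' (e ▸ p1.right_mem) h
      tauto
  have hT1 : ∀ z ∈ T1, z ∈ Q1 ∧ (z ∈ L1 → z = a1) ∧ (z ∈ L2 → z = a2) := by
    intro z hz
    have := mem_sdiff.1 (r1 hz)
    simp only [mem_erase, mem_union] at this
    refine ⟨this.1, fun h => ?_, fun h => ?_⟩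
    · have : z ≠ a2 := fun e => hL' h (e ▸ p2.left_mem)
      tauto
    · have : z ≠ a1 := fun e => hL' (e ▸ p1.left_mem) h
      tauto
  have d1 : ∀ z ∈ T2, z ∈ L2 → z = b2 := fun z h h' => (hT2 z h).2.2 h'
  have k1 := s2.join p2.symm d1
  have c1 := card_join s2.right_mem p2.right_mem d1
  have d2 : ∀ z ∈ T2 ∪ L2, z ∈ T1 → z = a2 := by
    intro z h h'
    rcases mem_union.1 h with h | h
    · exact absurd (hT2 z h).1 (hd' (hT1 z h').1)
    · exact (hT1 z h').2.2 h
  have k2 := k1.join r2 d2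
  have c2 := card_join k1.right_mem r2.left_mem d2
  obtain ⟨x', y', q1, q2, q3⟩ := p1.close k2 hab (by
    intro z h h'
    rcases mem_union.1 h' with h' | h'
    · rcases mem_union.1 h' with h' | h'
      · exact Or.inr ((hT2 z h').2.1 h)
      · exact absurd h' (hL' h)
    · exact Or.inl ((hT1 z h').2.1 h))
  exact ⟨x', y', _, q1, q2, by omega⟩

theorem Core.card_lt {m μ : ℕ} {Q : Finset V} (h : Core G m μ Q) (hC : ¬ HasC G m)
    (hm : 4 * μ + 7 ≤ m) : Q.card < m := by
  by_contra hcon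
  obtain ⟨x, hx⟩ := h.1
  obtain ⟨y, hy, -, hxy⟩ := exists_nbr (G := G) (S := Q) (U := ∅) (v := x)
    (by have := h.2 x hx; rw [card_empty]; omega)
  refine hC (h.close (PS.edge hxy) hx hy hxy.ne ?_ ?_)
  · have : Q.card ≤ ({x, y} ∪ Q).card := card_le_card subset_union_right
    omega
  · have : ({x, y} : Finset V).card ≤ 2 := card_le_two
    omega

/-- no short ear of `Q` avoids `T` -/
def NoEar (G : SimpleGraph V) (Q T : Finset V) (ρ : ℕ) : Prop :=
  ∀ q q' E, q ∈ Q \ T → q' ∈ Q \ T → q ≠ q' → PS G q q' E →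
    (∀ a ∈ E, a ∈ Q ∪ T → a = q ∨ a = q') → 3 ≤ E.card → ρ < E.card

theorem Core.ears {m μ ρ : ℕ} {Q : Finset V} (h : Core G m μ Q) (hC : ¬ HasC G m)
    (hm : 12 * μ + 2 * ρ + 7 ≤ m) :
    ∃ x y T, PS G x y T ∧ x ∈ Q ∧ y ∈ Q ∧ T.card ≤ 4 * μ ∧ (Q ∪ T).card < m ∧ NoEar G Q T ρ := by
  by_contra hcon
  push Not at hcon
  have hQ := h.card_ge
  have key : ∀ j, ∃ x y T, PS G x y T ∧ x ∈ Q ∧ y ∈ Q ∧ (T ∩ Q).card ≤ 3 * (T \ Q).card + 1 ∧
      (Q ∪ T).card < m ∧ j ≤ (T \ Q).card := by
    intro j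
    induction j with
    | zero =>
      obtain ⟨x, hx⟩ := h.1
      refine ⟨x, x, {x}, PS.single x, hx, hx, ?_, ?_, Nat.zero_le _⟩
      · have : ({x} ∩ Q).card ≤ ({x} : Finset V).card := card_le_card inter_subset_left
        rw [card_singleton] at this; omega
      · rw [union_eq_left.2 (by simpa using hx)]
        exact h.card_lt hC (by omega)
    | succ j ih =>
      obtain ⟨x, y, T, hp, hx, hy, c1, c2, c3⟩ := ih
      have e1 := card_sdiff_add_card T Q
      rw [union_comm] at e1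
      have e2 := card_sdiff_add_card_inter T Q
      have hT : T.card ≤ 4 * μ := by omega
      have hne := hcon x y T hp hx hy hT c2
      unfold NoEar at hne
      push Not at hne
      obtain ⟨q, q', E, hq, hq', hqq, pE, hE, h3, hρ⟩ := hne
      rw [mem_sdiff] at hq hq'
      have hcu := card_union_le T E
      obtain ⟨c, d1, d2, d3, d4⟩ := h.common hy hq.1 (T ∪ E) (by omega)
      rw [mem_union, not_or] at d2
      have hdis : Disjoint T (insert c E) := by
        rw [disjoint_right]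
        intro a ha haT
        rcases mem_insert.1 ha with rfl | ha
        · exact d2.1 haT
        · rcases hE a ha (mem_union_right _ haT) with rfl | rfl
          · exact hq.2 haT
          · exact hq'.2 haT
      have pN := hp.joinE d3 (PS.cons d4.symm d2.2 pE) hdis
      have cN := card_union_of_disjoint hdis
      rw [card_insert_of_notMem d2.2] at cN
      have cI : ((T ∪ insert c E) ∩ Q).card ≤ (T ∩ Q).card + 3 := by
        have : (T ∪ insert c E) ∩ Q ⊆ (T ∩ Q) ∪ {c, q, q'} := by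
          intro a ha
          have := hE a
          simp only [mem_inter, mem_union, mem_insert, mem_singleton] at *
          tauto
        have b1 := card_le_card this
        have b2 := card_union_le (T ∩ Q) {c, q, q'}
        have b3 : ({c, q, q'} : Finset V).card ≤ 3 := card_le_three
        omega
      have e3 := card_sdiff_add_card_inter (T ∪ insert c E) Q
      refine ⟨x, q', _, pN, hx, hq'.1, by omega, ?_, by omega⟩
      by_contra hbig
      refine hC (h.close pN hx hq'.1 (fun e => hq'.2 (e ▸ hp.left_mem)) ?_ (by omega))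
      rw [union_comm]; omega
  obtain ⟨x, y, T, -, -, -, -, c2, c3⟩ := key m
  have : (T \ Q).card ≤ (Q ∪ T).card := card_le_card (sdiff_subset.trans subset_union_right)
  omega

end RCS
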