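import Pool.Agent.P.MP_848074_co.Extract

open Finset
open scoped Classical

namespace RCS

variable {V : Type*} {G : SimpleGraph V}

theorem adjuster {B : Finset V} {d u D : ℕ} (hE : Ex G B d u D) (hud : u < d) (c : V → ℕ)
    (hc : ∀ a b, G.Adj a b → (c a + c b) % 2 = 1) (U : Finset V) (hU : U.card + 1 ≤ u) :
    ∃ x y T1 T2, PS G x y T1 ∧ PS G x y T2 ∧ T2.card = T1.card + 2 ∧ T1 ∪ T2 ⊆ B \ U ∧
      (T1 ∪ T2).card ≤ D + 1 := by
  obtain ⟨⟨v0, hv0⟩, hd, hcon⟩ := hE
  obtain ⟨v, hv, hvU, -⟩ := exists_nbr (G := G) (S := B) (U := U) (v := v0)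
    (by have := hd v0 hv0; omega)
  obtain ⟨a, ha, haU, hva⟩ := exists_nbr (G := G) (S := B) (U := U) (v := v)
    (by have := hd v hv; omega)
  obtain ⟨b, hb, hbU, hvb⟩ := exists_nbr (G := G) (S := B) (U := insert a U) (v := v)
    (by have := hd v hv; have := card_insert_le a U; omega)
  rw [mem_insert, not_or] at hbU
  obtain ⟨T, hT, hp, hTD⟩ := hcon (insert v U) (by have := card_insert_le v U; omega)
    a (by simp [ha, haU, hva.ne.symm]) b (by simp [hb, hbU.2, hvb.ne.symm])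
  have h2 := hp.two_le (Ne.symm hbU.1)
  have hpar := hp.parity c hc
  have p1 := hc _ _ hva
  have p2 := hc _ _ hvb
  obtain ⟨z, T1, T2, q1, q2, hu, hi, hk⟩ := hp.split_card (T.card / 2 + 1) (by omega) (by omega)
  have hj := card_join q1.right_mem q2.left_mem hi
  rw [hu] at hj
  have hvT : v ∉ T := fun h => by simpa using (mem_sdiff.1 (hT h)).2
  have hv2 : v ∉ T2 := fun h => hvT (hu ▸ mem_union_right _ h)
  have ha2 : a ∉ insert v T2 := by
    intro h
    rcases mem_insert.1 h with h | h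
    · exact hva.ne.symm h
    · have := q1.eq_single' (hi a q1.left_mem h)
      rw [this, card_singleton] at hk
      omega
  have he : T1 ∪ insert a (insert v T2) = insert v T := by
    rw [union_insert, union_insert, hu, insert_eq_of_mem]
    exact mem_insert_of_mem hp.left_mem
  refine ⟨a, z, T1, insert a (insert v T2), q1, PS.cons hva.symm ha2 (PS.cons hvb hv2 q2.symm),
    ?_, ?_, ?_⟩
  · rw [card_insert_of_notMem ha2, card_insert_of_notMem hv2]; omega
  · rw [he]
    refine insert_subset (mem_sdiff.2 ⟨hv, hvU⟩) (hT.trans ?_)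
    exact sdiff_subset_sdiff (Subset.refl _) (subset_insert _ _)
  · rw [he, card_insert_of_notMem hvT]; omega

theorem chain {B : Finset V} {d u D : ℕ} (hE : Ex G B d u D) (hud : u < d) (c : V → ℕ)
    (hc : ∀ a b, G.Adj a b → (c a + c b) % 2 = 1) (U : Finset V) {x : V} (hx : x ∈ B \ U) :
    ∀ w, U.card + 1 + w * (2 * D + 1) ≤ u → ∃ y Z n0, Z ⊆ B \ U ∧ Z.card ≤ 1 + w * (2 * D + 1) ∧
      ∀ i ≤ w, ∃ T, T ⊆ Z ∧ PS G x y T ∧ T.card = n0 + 2 * i := by
  intro w
  induction w with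
  | zero =>
    intro _
    refine ⟨x, {x}, 1, by simpa using hx, by simp, fun i hi => ⟨{x}, Subset.refl _, PS.single x, ?_⟩⟩
    simp; omega
  | succ w ih =>
    intro hw
    rw [add_mul, one_mul] at hw ⊢
    obtain ⟨y, Z, n0, hZ, hZc, hp⟩ := ih (by omega)
    have hUZ := card_union_le U Z
    obtain ⟨x', y', T1, T2, q1, q2, hc2, hs, hY⟩ := adjuster hE hud c hc (U ∪ Z) (by omega)
    have hyZ : y ∈ Z := by
      obtain ⟨T, h1, h2, -⟩ := hp 0 (by omega)
      exact h1 h2.right_mem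
    have hx' : x' ∈ T1 ∪ T2 := mem_union_left _ q1.left_mem
    have hdis : ∀ a ∈ Z, a ∉ T1 ∪ T2 := fun a h h' =>
      (mem_sdiff.1 (hs h')).2 (mem_union_right _ h)
    obtain ⟨L, hL, pL, cL⟩ := hE.2.2 (U ∪ Z.erase y ∪ (T1 ∪ T2).erase x') (by
        have a1 := card_union_le (U ∪ Z.erase y) ((T1 ∪ T2).erase x')
        have a2 := card_union_le U (Z.erase y)
        have a3 := card_erase_add_one hyZ
        have a4 := card_erase_add_one hx'
        omega)
      y (by
        have := mem_sdiff.1 (hZ hyZ)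
        have := hdis y hyZ
        simp only [mem_sdiff, mem_union, mem_erase] at *
        tauto)
      x' (by
        have := mem_sdiff.1 (hs hx')
        simp only [mem_sdiff, mem_union, mem_erase] at *
        tauto)
    have hL' : ∀ a ∈ L, a ∈ B ∧ a ∉ U ∧ (a ∈ Z → a = y) ∧ (a ∈ T1 ∪ T2 → a = x') := by
      intro a ha
      have := mem_sdiff.1 (hL ha)
      simp only [mem_union, mem_erase] at this ⊢
      tauto
    have key : ∀ T T', T ⊆ Z → PS G x y T → T' ⊆ T1 ∪ T2 → PS G x' y' T' →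
        T ∪ L ∪ T' ⊆ Z ∪ L ∪ (T1 ∪ T2) ∧ PS G x y' (T ∪ L ∪ T') ∧
          (T ∪ L ∪ T').card + 2 = T.card + L.card + T'.card := by
      intro T T' h1 h2 h3 h4
      have d1 : ∀ a ∈ T, a ∈ L → a = y := fun a h h' => (hL' a h').2.2.1 (h1 h)
      have d2 : ∀ a ∈ T ∪ L, a ∈ T' → a = x' := by
        intro a h h'
        rcases mem_union.1 h with h | h
        · exact absurd (h3 h') (hdis a (h1 h))
        · exact (hL' a h).2.2.2 (h3 h')
      have j1 := h2.join pL d1
      have c1 := card_join h2.right_mem pL.left_mem d1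
      have c2 := card_join j1.right_mem h4.left_mem d2
      exact ⟨union_subset_union (union_subset_union h1 (Subset.refl _)) h3, j1.join h4 d2,
        by omega⟩
    refine ⟨y', Z ∪ L ∪ (T1 ∪ T2), n0 + L.card + T1.card - 2, ?_, ?_, ?_⟩
    · refine union_subset (union_subset hZ ?_) (hs.trans ?_)
      · intro a ha
        exact mem_sdiff.2 ⟨(hL' a ha).1, (hL' a ha).2.1⟩
      · exact sdiff_subset_sdiff (Subset.refl _) subset_union_left
    · have a1 := card_union_le (Z ∪ L) (T1 ∪ T2)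
      have a2 := card_union_le Z L
      omega
    · intro i hi
      have l1 := pL.card_pos
      have l2 := q1.card_pos
      rcases Nat.eq_or_lt_of_le hi with rfl | hi
      · obtain ⟨T, h1, h2, h3⟩ := hp w le_rfl
        obtain ⟨k1, k2, k3⟩ := key T T2 h1 h2 subset_union_right q2
        exact ⟨_, k1, k2, by omega⟩
      · obtain ⟨T, h1, h2, h3⟩ := hp i (by omega)
        obtain ⟨k1, k2, k3⟩ := key T T1 h1 h2 subset_union_left q1
        exact ⟨_, k1, k2, by omega⟩

/-- paths of every admissible size in `B` -/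
def Exact (G : SimpleGraph V) (B : Finset V) (lo hi : ℕ) (c : V → ℕ) : Prop :=
  ∀ (U : Finset V) (x y : V) (n : ℕ), x ∈ B \ U → y ∈ B \ U → x ≠ y → lo ≤ n →
    n + U.card ≤ hi → (n + c x + c y) % 2 = 1 → ∃ T, T ⊆ B \ U ∧ PS G x y T ∧ T.card = n

theorem exact_of_ex {B : Finset V} {d u D : ℕ} (hE : Ex G B d u D) (hud : u < d) (c : V → ℕ)
    (hc : ∀ a b, G.Adj a b → (c a + c b) % 2 = 1) {hi : ℕ}
    (hhi : hi + D * (2 * D + 1) + 3 ≤ u) : Exact G B (D * (2 * D + 1) + D + 1) hi c := by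
  intro U x y n hx hy hxy hlo hn hpar
  have hcU := card_insert_le y U
  obtain ⟨y1, Z, n0, hZ, hZc, hp⟩ := chain hE hud c hc (insert y U) (x := x)
    (by simp only [mem_sdiff, mem_insert] at *; tauto) D (by omega)
  obtain ⟨T0, t1, t2, t3⟩ := hp 0 (by omega)
  have hy1 : y1 ∈ Z := t1 t2.right_mem
  have hn0 : n0 ≤ Z.card := by have := card_le_card t1; omega
  have hy1' := mem_sdiff.1 (hZ hy1)
  obtain ⟨z, Tg, g1, g2, g3⟩ := greedy hE.2.1 (insert y U ∪ Z.erase y1) hy1'.1
    (by simp only [mem_union, mem_erase] at *; tauto) (n + 2 - n0 - D) (by omega) (by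
      have a1 := card_union_le (insert y U) (Z.erase y1)
      have a2 := card_erase_add_one hy1
      omega)
  have hTg : ∀ a ∈ Tg, a ∈ B ∧ a ∉ U ∧ a ≠ y ∧ (a ∈ Z → a = y1) := by
    intro a ha
    have := mem_sdiff.1 (g2 ha)
    simp only [mem_union, mem_erase, mem_insert] at this ⊢
    tauto
  have hZ' : ∀ a ∈ Z, a ∈ B ∧ a ∉ U ∧ a ≠ y := by
    intro a ha
    have := mem_sdiff.1 (hZ ha)
    simp only [mem_insert] at this ⊢
    tauto
  have hz := hTg z g1.right_mem
  obtain ⟨L, hL, pL, cL⟩ := hE.2.2 (U ∪ (Z ∪ Tg).erase z) (by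
      have a1 := card_union_le U ((Z ∪ Tg).erase z)
      have a2 := card_union_le Z Tg
      have a3 := card_erase_le (s := Z ∪ Tg) (a := z)
      omega)
    z (by simp only [mem_sdiff, mem_union, mem_erase] at *; tauto)
    y (by
      have a1 : y ∉ Z := fun h => (hZ' y h).2.2 rfl
      have a2 : y ∉ Tg := fun h => (hTg y h).2.2.1 rfl
      simp only [mem_sdiff, mem_union, mem_erase] at *; tauto)
  have hL' : ∀ a ∈ L, a ∈ B ∧ a ∉ U ∧ (a ∈ Z ∪ Tg → a = z) := by
    intro a ha
    have := mem_sdiff.1 (hL ha)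
    simp only [mem_union, mem_erase] at this ⊢
    tauto
  have key : ∀ T, T ⊆ Z → PS G x y1 T →
      T ∪ Tg ∪ L ⊆ B \ U ∧ PS G x y (T ∪ Tg ∪ L) ∧
        (T ∪ Tg ∪ L).card + 2 = T.card + Tg.card + L.card := by
    intro T h1 h2
    have d1 : ∀ a ∈ T, a ∈ Tg → a = y1 := fun a h h' => (hTg a h').2.2.2 (h1 h)
    have d2 : ∀ a ∈ T ∪ Tg, a ∈ L → a = z := fun a h h' =>
      (hL' a h').2.2 (union_subset_union h1 (Subset.refl _) h)
    have j1 := h2.join g1 d1
    have c1 := card_join h2.right_mem g1.left_mem d1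
    have c2 := card_join j1.right_mem pL.left_mem d2
    refine ⟨union_subset (union_subset ?_ ?_) ?_, j1.join pL d2, by omega⟩
    · intro a ha
      exact mem_sdiff.2 ⟨(hZ' a (h1 ha)).1, (hZ' a (h1 ha)).2.1⟩
    · intro a ha
      exact mem_sdiff.2 ⟨(hTg a ha).1, (hTg a ha).2.1⟩
    · intro a ha
      exact mem_sdiff.2 ⟨(hL' a ha).1, (hL' a ha).2.1⟩
  obtain ⟨-, k2, k3⟩ := key T0 t1 t2
  have hpar0 := k2.parity c hc
  obtain ⟨T, s1, s2, s3⟩ := hp ((D - L.card) / 2) (by omega)
  obtain ⟨k1, k2, k4⟩ := key T s1 s2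
  exact ⟨_, k1, k2, by omega⟩

/-- the bipartite subgraph of a two-colouring -/
def bip (G : SimpleGraph V) (c : V → ℕ) : SimpleGraph V where
  Adj a b := G.Adj a b ∧ (c a + c b) % 2 = 1
  symm := ⟨fun a b h => ⟨h.1.symm, by have := h.2; omega⟩⟩
  loopless := ⟨fun a h => G.irrefl h.1⟩

theorem sum_deg_insert {A : Finset V} {a : V} (ha : a ∉ A) :
    ∑ v ∈ insert a A, deg G (insert a A) v = ∑ v ∈ A, deg G A v + 2 * deg G A a := by
  rw [sum_insert ha, deg_insert ha, if_neg G.irrefl]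
  have : ∑ v ∈ A, deg G (insert a A) v = ∑ v ∈ A, (deg G A v + if G.Adj a v then 1 else 0) := by
    apply sum_congr rfl
    intro v _
    rw [deg_insert ha]
    simp only [G.adj_comm]
  rw [this, sum_add_distrib, ← card_filter]
  unfold deg
  omega

theorem exists_bip (A : Finset V) :
    ∃ c : V → ℕ, ∑ v ∈ A, deg G A v ≤ 2 * ∑ v ∈ A, deg (bip G c) A v := by
  induction A using Finset.induction_on with
  | empty => exact ⟨fun _ => 0, by simp⟩
  | insert a A ha ih =>
    obtain ⟨c, hc⟩ := ih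
    have h1 : ∀ k, ∑ v ∈ A, deg (bip G (Function.update c a k)) A v
        = ∑ v ∈ A, deg (bip G c) A v := by
      intro k
      apply sum_congr rfl
      intro v hv
      unfold deg
      congr 1
      apply filter_congr
      intro w hw
      have e1 : v ≠ a := fun h => ha (h ▸ hv)
      have e2 : w ≠ a := fun h => ha (h ▸ hw)
      simp only [bip, Function.update_of_ne e1, Function.update_of_ne e2]
    have h2 : deg G A a ≤ deg (bip G (Function.update c a 0)) A a
        + deg (bip G (Function.update c a 1)) A a := by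
      unfold deg
      refine le_trans (card_le_card ?_) (card_union_le _ _)
      intro w hw
      rw [mem_filter] at hw
      have e2 : w ≠ a := fun h => ha (h ▸ hw.1)
      simp only [mem_union, mem_filter, bip, Function.update_of_ne e2, Function.update_self]
      have : (0 + c w) % 2 = 1 ∨ (1 + c w) % 2 = 1 := by omega
      tauto
    by_cases h3 : deg G A a ≤ 2 * deg (bip G (Function.update c a 0)) A a
    · refine ⟨Function.update c a 0, ?_⟩
      rw [sum_deg_insert ha, sum_deg_insert ha, h1]; omega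
    · refine ⟨Function.update c a 1, ?_⟩
      rw [sum_deg_insert ha, sum_deg_insert ha, h1]; omega

theorem exists_exact {W : Finset V} {h b d u hi : ℕ} (hh : 2 ≤ h) (hb6 : 6 * b ≤ h)
    (hne : W.Nonempty) (hW : W.card ≤ 2 ^ b) (hd : 8 * d * W.card ≤ ∑ v ∈ W, deg G W v)
    (hu : 4 * h * u ≤ d) {D : ℕ} (hD : D = 4 * h * (b + 1) + 3)
    (hhi : hi + D * (2 * D + 1) + 3 ≤ u) :
    ∃ B ⊆ W, ∃ c : V → ℕ, Exact G B (D * (2 * D + 1) + D + 1) hi c ∧ hi < B.card ∧
      ∃ x ∈ B, ∃ y ∈ B, G.Adj x y ∧ (c x + c y) % 2 = 1 := by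
  obtain ⟨c, hc⟩ := exists_bip (G := G) W
  have h1 : ft (bip G c) W.card W = ∑ v ∈ W, deg (bip G c) W v := by
    apply sum_congr rfl
    intro v _
    exact min_eq_left (deg_le _ _)
  obtain ⟨B, hB, hE, -⟩ := expander (G := bip G c) W.card h b d u hh hb6 hne hW (by
    rw [h1]
    have : 8 * d * W.card = 2 * (4 * d * W.card) := by ring
    omega) hu
  rw [← hD] at hE
  have hud : u < d := by
    have : 4 * 2 * u ≤ 4 * h * u := Nat.mul_le_mul_right _ (by omega)
    omega
  have hex := exact_of_ex hE hud c (fun a b h => h.2) hhi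
  obtain ⟨x, hx⟩ := hE.1
  have hdx := hE.2.1 x hx
  obtain ⟨y, hy, -, hxy⟩ := exists_nbr (G := bip G c) (S := B) (U := ∅) (v := x)
    (by rw [card_empty]; omega)
  refine ⟨B, hB, c, ?_, ?_, x, hx, y, hy, hxy.1, hxy.2⟩
  · intro U x y n a1 a2 a3 a4 a5 a6
    obtain ⟨T, b1, b2, b3⟩ := hex U x y n a1 a2 a3 a4 a5 a6
    exact ⟨T, b1, b2.mono (G' := G) (fun a b (h : (bip G c).Adj a b) => h.1), b3⟩
  · have := deg_le (G := bip G c) B x
    omega

end RCS
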