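import Pool.Agent.P.MP_848074_co.Ball

open Finset
open scoped Classical

namespace RCS

variable {V : Type*}

/-- truncated degree sum -/
noncomputable def ft (G : SimpleGraph V) (δ : ℕ) (X : Finset V) : ℕ :=
  ∑ v ∈ X, min (deg G X v) δ

variable {G : SimpleGraph V}

theorem ft_erase (δ : ℕ) {A : Finset V} {v : V} (hv : v ∈ A) :
    ft G δ A ≤ ft G δ (A.erase v) + 2 * deg G A v := by
  unfold ft
  rw [← add_sum_erase _ _ hv]
  have h1 : ∑ x ∈ A.erase v, min (deg G A x) δ
      ≤ ∑ x ∈ A.erase v, (min (deg G (A.erase v) x) δ + if G.Adj v x then 1 else 0) := by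
    apply sum_le_sum
    intro x _
    have := deg_insert (G := G) (S := A.erase v) (a := v) (w := x) (notMem_erase v A)
    rw [insert_erase hv] at this
    rw [this]
    by_cases h : G.Adj v x
    · simp only [h, h.symm, if_true]; omega
    · have h' : ¬ G.Adj x v := fun h' => h h'.symm
      simp only [h, h', if_false]; omega
  rw [sum_add_distrib, ← card_filter] at h1
  have h2 : ((A.erase v).filter (fun x => G.Adj v x)).card ≤ deg G A v :=
    deg_mono (erase_subset v A) v
  have h3 : min (deg G A v) δ ≤ deg G A v := min_le_left _ _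
  omega

theorem ft_split (δ : ℕ) {A S : Finset V} (hS : S ⊆ A) :
    ft G δ A ≤ ft G δ (S ∪ bd G A S) + ft G δ (A \ S) := by
  have hb : S ∪ bd G A S ⊆ A := union_subset hS ((filter_subset _ _).trans sdiff_subset)
  have e1 : ∀ X ⊆ A, ft G δ X = ∑ v ∈ A, if v ∈ X then min (deg G X v) δ else 0 := by
    intro X hX
    rw [sum_ite_mem, inter_eq_right.2 hX]; rfl
  rw [e1 _ hb, e1 _ sdiff_subset, ← sum_add_distrib]
  apply sum_le_sum
  intro v hv
  by_cases h1 : v ∈ S
  · have : deg G A v ≤ deg G (S ∪ bd G A S) v := by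
      apply card_le_card
      intro w hw
      rw [mem_filter] at hw ⊢
      refine ⟨?_, hw.2⟩
      by_cases hwS : w ∈ S
      · exact mem_union_left _ hwS
      · exact mem_union_right _ (mem_filter.2 ⟨mem_sdiff.2 ⟨hw.1, hwS⟩, v, h1, hw.2⟩)
    rw [if_pos (mem_union_left _ h1)]
    omega
  · have hvR : v ∈ A \ S := mem_sdiff.2 ⟨hv, h1⟩
    rw [if_pos hvR]
    by_cases h2 : v ∈ bd G A S
    · rw [if_pos (mem_union_right _ h2)]
      have a1 : deg G A v ≤ deg G ((S ∪ bd G A S) ∪ (A \ S)) v := by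
        apply deg_mono
        intro w hw
        by_cases hwS : w ∈ S
        · exact mem_union_left _ (mem_union_left _ hwS)
        · exact mem_union_right _ (mem_sdiff.2 ⟨hw, hwS⟩)
      have a2 := deg_union_le (G := G) (S ∪ bd G A S) (A \ S) v
      omega
    · have : deg G A v ≤ deg G (A \ S) v := by
        apply card_le_card
        intro w hw
        rw [mem_filter] at hw ⊢
        refine ⟨mem_sdiff.2 ⟨hw.1, fun hwS => h2 ?_⟩, hw.2⟩
        exact mem_filter.2 ⟨hvR, w, hwS, hw.2.symm⟩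
      omega

/-- average truncated degree -/
noncomputable def av (G : SimpleGraph V) (δ : ℕ) (X : Finset V) : ℝ := (ft G δ X : ℝ) / X.card

theorem av_nonneg (δ : ℕ) (X : Finset V) : 0 ≤ av G δ X := by unfold av; positivity

theorem ft_eq (δ : ℕ) {X : Finset V} (hX : X.Nonempty) : (ft G δ X : ℝ) = av G δ X * X.card := by
  have : (0 : ℝ) < X.card := by exact_mod_cast hX.card_pos
  unfold av; field_simp

theorem extract (δ h : ℕ) (hh : 2 ≤ h) : ∀ (n : ℕ) (A : Finset V), A.card = n → ∀ t : ℕ,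
    A.Nonempty → 3 ^ t * A.card ≤ 4 ^ t → ∃ B ⊆ A, B.Nonempty ∧
      ((h : ℝ) / (h + 1)) ^ t * av G δ A ≤ av G δ B ∧
      (∀ v ∈ B, av G δ B ≤ 2 * deg G B v) ∧
      ∀ S ⊆ B, 2 * S.card ≤ B.card → S.card ≤ h * (bd G B S).card := by
  intro n
  induction n using Nat.strong_induction_on with
  | _ n ih =>
  intro A hA t hne ht
  have hq0 : (0 : ℝ) ≤ (h : ℝ) / (h + 1) := by positivity
  have hq1 : (h : ℝ) / (h + 1) ≤ 1 := by
    rw [div_le_one (by positivity)]; linarith
  by_cases c1 : ∃ X, X ⊂ A ∧ X.Nonempty ∧ av G δ A ≤ av G δ X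
  · obtain ⟨X, hX, hXn, hav⟩ := c1
    have hc := card_lt_card hX
    obtain ⟨B, b1, b2, b3, b4⟩ := ih X.card (hA ▸ hc) X rfl t hXn
      ((Nat.mul_le_mul_left _ hc.le).trans ht)
    exact ⟨B, b1.trans hX.subset, b2,
      (mul_le_mul_of_nonneg_left hav (pow_nonneg hq0 t)).trans b3, b4⟩
  by_cases c2 : ∃ X, X ⊆ A ∧ X.Nonempty ∧ 4 * X.card ≤ 3 * A.card ∧
      (h : ℝ) / (h + 1) * av G δ A ≤ av G δ X
  · obtain ⟨X, hX, hXn, hc, hav⟩ := c2
    have hp := hXn.card_pos
    obtain ⟨t, rfl⟩ : ∃ s, t = s + 1 := by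
      refine ⟨t - 1, ?_⟩
      rcases Nat.eq_zero_or_pos t with rfl | h
      · simp at ht; omega
      · omega
    have ht' : 3 ^ t * X.card ≤ 4 ^ t := by
      have : 4 * (3 ^ t * X.card) ≤ 4 * 4 ^ t := by
        calc 4 * (3 ^ t * X.card) = 3 ^ t * (4 * X.card) := by ring
          _ ≤ 3 ^ t * (3 * A.card) := Nat.mul_le_mul_left _ hc
          _ = 3 ^ (t + 1) * A.card := by ring
          _ ≤ 4 ^ (t + 1) := ht
          _ = _ := by ring
      omega
    obtain ⟨B, b1, b2, b3, b4⟩ := ih X.card (by omega) X rfl t hXn ht'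
    refine ⟨B, b1.trans hX, b2, le_trans ?_ b3, b4⟩
    rw [pow_succ, mul_assoc]
    exact mul_le_mul_of_nonneg_left hav (pow_nonneg hq0 t)
  push Not at c1 c2
  have ha0 := av_nonneg (G := G) δ A
  have hfA := ft_eq (G := G) δ hne
  refine ⟨A, Subset.refl _, hne, ?_, ?_, ?_⟩
  · exact mul_le_of_le_one_left ha0 (pow_le_one₀ hq0 hq1)
  · intro v hv
    have h1 : (ft G δ A : ℝ) ≤ ft G δ (A.erase v) + 2 * deg G A v := by
      exact_mod_cast ft_erase δ hv
    have h2 : ((A.erase v).card : ℝ) + 1 = A.card := by exact_mod_cast card_erase_add_one hv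
    have h3 : (ft G δ (A.erase v) : ℝ) ≤ av G δ A * (A.erase v).card := by
      rcases (A.erase v).eq_empty_or_nonempty with he | he
      · rw [he]; simp [ft]
      · rw [ft_eq δ he]
        exact mul_le_mul_of_nonneg_right (c1 _ (erase_ssubset hv) he).le (by positivity)
    rw [hfA, ← h2] at h1
    nlinarith
  · intro S hS hc
    by_contra hcon
    push Not at hcon
    have hSn : S.Nonempty := card_pos.1 (by omega)
    have hdis : Disjoint S (bd G A S) := by
      rw [disjoint_right]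
      intro w hw
      exact (mem_sdiff.1 (mem_filter.1 hw).1).2
    have hcu := card_union_of_disjoint hdis
    have hb : S ∪ bd G A S ⊆ A := union_subset hS ((filter_subset _ _).trans sdiff_subset)
    have hcR : (A \ S).card + S.card = A.card := card_sdiff_add_card_eq_card hS
    have hRn : (A \ S).Nonempty := card_pos.1 (by omega)
    have h2 : 2 * (bd G A S).card ≤ h * (bd G A S).card := Nat.mul_le_mul_right _ hh
    have a1 := c1 (A \ S) (sdiff_ssubset hS hSn) hRn
    have a2 := c2 _ hb (hSn.mono subset_union_left) (by omega)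
    have a3 : (ft G δ A : ℝ) ≤ ft G δ (S ∪ bd G A S) + ft G δ (A \ S) := by
      exact_mod_cast ft_split δ hS
    rw [hfA, ft_eq δ hRn, ft_eq δ (hSn.mono subset_union_left), hcu, ← hcR] at a3
    push_cast at a3
    have p1 : (0 : ℝ) < (A \ S).card := by exact_mod_cast hRn.card_pos
    have p2 : (0 : ℝ) < S.card := by exact_mod_cast hSn.card_pos
    have p3 : (0 : ℝ) ≤ (bd G A S).card := by positivity
    have p4 : (h : ℝ) * (bd G A S).card < S.card := by exact_mod_cast hcon
    have a4 : av G δ (A \ S) * (A \ S).card < av G δ A * (A \ S).card :=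
      mul_lt_mul_of_pos_right a1 p1
    have a5 : av G δ (S ∪ bd G A S) * ((S.card : ℝ) + (bd G A S).card)
        ≤ (h : ℝ) / (h + 1) * av G δ A * ((S.card : ℝ) + (bd G A S).card) :=
      mul_le_mul_of_nonneg_right a2.le (by positivity)
    have a6 : (h : ℝ) / (h + 1) * ((S.card : ℝ) + (bd G A S).card) ≤ S.card := by
      rw [div_mul_eq_mul_div, div_le_iff₀ (by positivity)]; nlinarith
    have a7 := mul_le_mul_of_nonneg_left a6 ha0
    nlinarith

theorem expander (δ h b d u : ℕ) (hh : 2 ≤ h) (hb6 : 6 * b ≤ h) {A : Finset V}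
    (hne : A.Nonempty) (hA : A.card ≤ 2 ^ b) (hd : 4 * d * A.card ≤ ft G δ A)
    (hu : 4 * h * u ≤ d) : ∃ B ⊆ A, Ex G B d u (4 * h * (b + 1) + 3) ∧
      (1 - 3 * b / (h : ℝ)) * av G δ A ≤ av G δ B := by
  have ht : 3 ^ (3 * b) * A.card ≤ 4 ^ (3 * b) := by
    calc 3 ^ (3 * b) * A.card ≤ 3 ^ (3 * b) * 2 ^ b := Nat.mul_le_mul_left _ hA
      _ = 54 ^ b := by rw [pow_mul, ← mul_pow]; norm_num
      _ ≤ 64 ^ b := Nat.pow_le_pow_left (by norm_num) b
      _ = _ := by rw [pow_mul]; norm_num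
  obtain ⟨B, b1, b2, b3, b4, b5⟩ := extract (G := G) δ h hh _ A rfl (3 * b) hne ht
  have hpos : (0 : ℝ) < h := by exact_mod_cast (by omega : 0 < h)
  have ha0 := av_nonneg (G := G) δ A
  have hq : 1 - 3 * b / (h : ℝ) ≤ ((h : ℝ) / (h + 1)) ^ (3 * b) := by
    have e : (h : ℝ) / (h + 1) = 1 + (-1 / (h + 1)) := by field_simp; ring
    have h1 := one_add_mul_le_pow (a := (-1 / ((h : ℝ) + 1))) (by
      rw [le_div_iff₀ (by positivity)]; linarith) (3 * b)
    rw [e]
    refine le_trans ?_ h1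
    push_cast
    have : (3 * b : ℝ) / (h + 1) ≤ 3 * b / h :=
      div_le_div_of_nonneg_left (by positivity) hpos (by linarith)
    have e2 : (3 * b : ℝ) * (-1 / (h + 1)) = - (3 * b / (h + 1)) := by ring
    rw [e2]; linarith
  have hav : (1 - 3 * b / (h : ℝ)) * av G δ A ≤ av G δ B :=
    (mul_le_mul_of_nonneg_right hq ha0).trans b3
  refine ⟨B, b1, ex_of_expand b2 (by omega) ((card_le_card b1).trans hA) ?_ b5 hu, hav⟩
  intro v hv
  have h1 : (3 * b : ℝ) / h ≤ 1 / 2 := by
    rw [div_le_iff₀ hpos]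
    have : (6 * b : ℝ) ≤ h := by exact_mod_cast hb6
    linarith
  have h2 : (4 * d : ℝ) ≤ av G δ A := by
    unfold av
    rw [le_div_iff₀ (by exact_mod_cast hne.card_pos)]
    exact_mod_cast hd
  have h3 := b4 v hv
  have : (d : ℝ) ≤ deg G B v := by nlinarith
  exact_mod_cast this

end RCS
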