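import Pool.Agent.P.MP_848074_co.PS

open Finset
open scoped Classical

namespace RCS

variable {V : Type*} {G : SimpleGraph V}

theorem no_cycle {J : Type*} {m : ℕ} (hm : 3 ≤ m) (blob : J → Finset V)
    (hb : ∀ a, (blob a).card < m) (lab : V → V → J)
    (hlab : ∀ x y, G.Adj x y → x ∈ blob (lab x y))
    (hsw : ∀ x u y, G.Adj x u → G.Adj u y → lab x u ≠ lab u y → ∃ ψ : V → ℕ,
      (∀ p q, p ≠ u → q ≠ u → G.Adj p q → ψ q ≤ ψ p + 1) ∧
        (ψ y + m ≤ ψ x + 1 ∨ ψ x + m ≤ ψ y + 1)) :
    ¬ SimpleGraph.IsContained (SimpleGraph.cycleGraph m) G := by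
  rintro ⟨φ⟩
  have hm0 : 0 < m := by omega
  set f : ℕ → V := fun i => φ ⟨i % m, Nat.mod_lt _ hm0⟩ with hf
  have hinj : ∀ i j, f i = f j → i % m = j % m := fun i j h =>
    congrArg Fin.val (φ.injective h)
  have hadj : ∀ i, G.Adj (f i) (f (i + 1)) := by
    intro i
    apply φ.toHom.map_adj
    rw [SimpleGraph.cycleGraph_adj']
    right
    rw [Fin.sub_def]
    show (m - i % m + (i + 1) % m) % m = 1
    have h1 := Nat.mod_lt i hm0
    rw [Nat.add_mod_mod, show m - i % m + (i + 1) = 1 + m * (i / m + 1) by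
      have := Nat.div_add_mod i m
      rw [mul_add]; omega, Nat.add_mul_mod_self_left, Nat.mod_eq_of_lt (by omega)]
  by_cases hall : ∀ i, lab (f i) (f (i + 1)) = lab (f (i + 1)) (f (i + 1 + 1))
  · have h1 : ∀ i, lab (f i) (f (i + 1)) = lab (f 0) (f 1) := by
      intro i
      induction i with
      | zero => rfl
      | succ i ih => rw [← hall, ih]
    have h2 : (range m).card ≤ (blob (lab (f 0) (f 1))).card := by
      apply card_le_card_of_injOn f
      · intro i _
        exact h1 i ▸ hlab _ _ (hadj i)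
      · intro i hi j hj he
        have := hinj i j he
        rwa [Nat.mod_eq_of_lt (mem_range.1 hi), Nat.mod_eq_of_lt (mem_range.1 hj)] at this
    rw [card_range] at h2
    exact absurd (hb _) (not_lt.2 h2)
  push Not at hall
  obtain ⟨i, hi⟩ := hall
  obtain ⟨ψ, h1, h2⟩ := hsw _ _ _ (hadj i) (hadj (i + 1)) hi
  have hne : ∀ t, t + 2 ≤ m → f (i + 1 + 1 + t) ≠ f (i + 1) := by
    intro t ht he
    have h3 : Nat.ModEq m (i + 1 + (1 + t)) (i + 1 + 0) := by
      have := hinj _ _ he
      rwa [add_assoc (i + 1)] at this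
    have h4 := Nat.ModEq.add_left_cancel' _ h3
    have := Nat.le_of_dvd (by omega) ((Nat.modEq_zero_iff_dvd).1 h4)
    omega
  have key : ∀ t, t + 2 ≤ m → ψ (f (i + 1 + 1 + t)) ≤ ψ (f (i + 1 + 1)) + t ∧
      ψ (f (i + 1 + 1)) ≤ ψ (f (i + 1 + 1 + t)) + t := by
    intro t
    induction t with
    | zero => intro _; simp
    | succ t ih =>
      intro ht
      have a1 := ih (by omega)
      have a2 := h1 _ _ (hne t (by omega)) (hne (t + 1) ht) (hadj (i + 1 + 1 + t))
      have a3 := h1 _ _ (hne (t + 1) ht) (hne t (by omega)) (hadj (i + 1 + 1 + t)).symm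
      omega
  have e : f (i + 1 + 1 + (m - 2)) = f i := by
    simp only [hf, show i + 1 + 1 + (m - 2) = i + m by omega, Nat.add_mod_right]
  have := key (m - 2) (by omega)
  rw [e] at this
  omega

/-- cliques glued at hubs -/
def treeG (N M i c : ℕ) : SimpleGraph (Fin N) where
  Adj x y := x ≠ y ∧ ((x.val < M ∧ y.val < M ∧ x.val % i = y.val % i) ∨
    (x.val < M ∧ y.val = M + min (x.val % i) (c - 1)) ∨
    (y.val < M ∧ x.val = M + min (y.val % i) (c - 1)))
  symm := ⟨fun x y h => ⟨h.1.symm, by have := h.2; omega⟩⟩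
  loopless := ⟨fun x h => h.1 rfl⟩

theorem tree_exists {m δ i N : ℕ} (hm : 3 ≤ m) (h1 : i * δ + 1 ≤ N) (h2 : N ≤ i * (m - 1)) :
    ∃ G : SimpleGraph (Fin N), ¬ SimpleGraph.IsContained (SimpleGraph.cycleGraph m) G ∧
      ∀ v, δ ≤ deg G univ v := by
  have hi : 0 < i := by
    rcases Nat.eq_zero_or_pos i with rfl | h
    · omega
    · exact h
  have e1 : i * (m - 1) = i * (m - 2) + i := by
    rw [show m - 1 = m - 2 + 1 by omega]; ring
  have hδ : i * δ ≤ i * (m - 2) := by
    apply Nat.mul_le_mul_left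
    have : δ < m - 1 := Nat.lt_of_mul_lt_mul_left (a := i) (by omega)
    omega
  obtain ⟨c, M, hc1, hci, hM, hM1, hM2⟩ : ∃ c M, 1 ≤ c ∧ c ≤ i ∧ M + c = N ∧ i * δ ≤ M ∧
      M ≤ i * (m - 2) :=
    ⟨max 1 (N - i * (m - 2)), N - max 1 (N - i * (m - 2)), by omega, by omega, by omega,
      by omega, by omega⟩
  set blk : ℕ → Finset (Fin N) := fun a => univ.filter (fun x => x.val < M ∧ x.val % i = a)
    with hblk
  have hup : ∀ a, (blk a).card ≤ m - 2 := by
    intro a
    rw [← card_range (m - 2)]
    apply card_le_card_of_injOn (fun x => x.val / i)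
    · intro x hx
      have := (mem_filter.1 (mem_coe.1 hx)).2
      exact mem_coe.2 (mem_range.2 (Nat.div_lt_of_lt_mul (by omega)))
    · intro x hx y hy he
      have a1 := (mem_filter.1 (mem_coe.1 hx)).2
      have a2 := (mem_filter.1 (mem_coe.1 hy)).2
      have a3 := Nat.div_add_mod x.val i
      have a4 := Nat.div_add_mod y.val i
      simp only at he
      rw [he] at a3
      exact Fin.ext (by omega)
  have hlo : ∀ a < i, δ ≤ (blk a).card := by
    intro a ha
    have hlt : ∀ s : Fin δ, a + i * s.val < M := by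
      intro s
      have : i * (s.val + 1) ≤ i * δ := Nat.mul_le_mul_left _ s.isLt
      rw [mul_add] at this
      omega
    have := card_le_card_of_injOn (s := (univ : Finset (Fin δ))) (t := blk a)
      (fun s => ⟨a + i * s.val, by have := hlt s; omega⟩) (by
        intro s _
        refine mem_coe.2 (mem_filter.2 ⟨mem_univ _, hlt s, ?_⟩)
        simp [Nat.mod_eq_of_lt ha]) (by
        intro s _ t _ he
        have := congrArg Fin.val he
        simp only [add_right_inj] at this
        exact Fin.ext (Nat.eq_of_mul_eq_mul_left hi this))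
    simpa using this
  set hub : ℕ → Fin N := fun a => ⟨M + min a (c - 1), by omega⟩ with hhub
  refine ⟨treeG N M i c, no_cycle hm (fun a => insert (hub a) (blk a)) ?_
    (fun x y => if x.val < M then x.val % i else y.val % i) ?_ ?_, ?_⟩
  · intro a
    have := card_insert_le (hub a) (blk a)
    have := hup a
    omega
  · intro x y h
    have := h.2
    simp only [hblk, hhub, mem_insert, mem_filter, mem_univ, true_and, Fin.ext_iff]
    split_ifs <;> omega
  · intro x u y h1 h2 h3
    have a1 := h1.2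
    have a2 := h2.2
    refine ⟨fun p => if p.val < M ∧ p.val % i = x.val % i then m else 0, ?_, ?_⟩
    · intro p q hp hq h
      have a3 := h.2
      rw [Ne, Fin.ext_iff] at hp hq
      beta_reduce
      split_ifs at h3 ⊢ <;> omega
    · left
      beta_reduce
      split_ifs at h3 ⊢ <;> omega
  · intro v
    by_cases hv : v.val < M
    · have a1 := hlo (v.val % i) (Nat.mod_lt _ hi)
      have hvb : v ∈ blk (v.val % i) := mem_filter.2 ⟨mem_univ _, hv, rfl⟩
      have a2 : hub (v.val % i) ∉ (blk (v.val % i)).erase v := by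
        simp only [hblk, hhub, mem_erase, mem_filter]; omega
      have a3 := card_insert_of_notMem a2
      have a4 := card_erase_add_one hvb
      refine le_trans (by omega : δ ≤ (insert (hub (v.val % i)) ((blk (v.val % i)).erase v)).card)
        (card_le_card ?_)
      intro w hw
      simp only [hblk, hhub, mem_insert, mem_erase, mem_filter, mem_univ, true_and, treeG, Ne,
        Fin.ext_iff] at hw ⊢
      omega
    · have hvN := v.isLt
      refine le_trans (hlo (v.val - M) (by omega)) (card_le_card ?_)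
      intro w hw
      simp only [hblk, mem_filter, mem_univ, true_and, treeG, Ne, Fin.ext_iff] at hw ⊢
      omega

/-- a ring of cliques, consecutive ones sharing a vertex -/
def ringG (j k : ℕ) : SimpleGraph (Fin j × Fin k) where
  Adj x y := (x.1.val = y.1.val ∧ x.2.val ≠ y.2.val) ∨
    (x.2.val ≠ 0 ∧ y.2.val = 0 ∧ (y.1.val = x.1.val + 1 ∨ (x.1.val + 1 = j ∧ y.1.val = 0))) ∨
    (y.2.val ≠ 0 ∧ x.2.val = 0 ∧ (x.1.val = y.1.val + 1 ∨ (y.1.val + 1 = j ∧ x.1.val = 0)))
  symm := ⟨fun x y h => by omega⟩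
  loopless := ⟨fun x h => by omega⟩

theorem ring_exists {m j : ℕ} (hm : 4 ≤ m) (hj : m < 2 * j) :
    ¬ SimpleGraph.IsContained (SimpleGraph.cycleGraph m) (ringG j (m - 2)) ∧
      ∀ v, m - 2 ≤ deg (ringG j (m - 2)) univ v := by
  set nx : Fin j → Fin j × Fin (m - 2) := fun a =>
    (⟨if a.val + 1 = j then 0 else a.val + 1, by have := a.isLt; split_ifs <;> omega⟩,
      ⟨0, by omega⟩) with hnx
  set pv : Fin j → Fin j × Fin (m - 2) := fun a =>
    (⟨if a.val = 0 then j - 1 else a.val - 1, by have := a.isLt; split_ifs <;> omega⟩,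
      ⟨1, by omega⟩) with hpv
  refine ⟨no_cycle (by omega) (fun a => insert (nx a) ({a} ×ˢ univ)) ?_
    (fun x y => if x.2.val = 0 then y.1 else x.1) ?_ ?_, ?_⟩
  · intro a
    have := card_insert_le (nx a) ({a} ×ˢ univ)
    simp only [card_product, card_singleton, card_univ, Fintype.card_fin] at this
    omega
  · intro x y h
    simp only [ringG] at h
    simp only [hnx, mem_insert, mem_product, mem_singleton, mem_univ, and_true, Prod.ext_iff,
      Fin.ext_iff]
    split_ifs <;> omega
  · intro x u y h1 h2 h3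
    simp only [ringG] at h1 h2
    have b1 := x.1.isLt
    have b2 := u.1.isLt
    have b3 := y.1.isLt
    refine ⟨fun p => 2 * (if u.1.val ≤ p.1.val then p.1.val - u.1.val else p.1.val + j - u.1.val)
      + if p.2.val = 0 then 0 else 1, ?_, ?_⟩
    · intro p q hp hq h
      simp only [ringG] at h
      have b4 := p.1.isLt
      have b5 := q.1.isLt
      rw [Ne, Prod.ext_iff, Fin.ext_iff, Fin.ext_iff] at hp hq
      beta_reduce
      split_ifs at h3 ⊢ <;> rw [Ne, Fin.ext_iff] at h3 <;> omega
    · beta_reduce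
      split_ifs at h3 ⊢ <;> rw [Ne, Fin.ext_iff] at h3 <;> omega
  · intro v
    have b1 := v.1.isLt
    have key : ∀ w : Fin j × Fin (m - 2), w.1 ≠ v.1 → (ringG j (m - 2)).Adj v w →
        m - 2 ≤ deg (ringG j (m - 2)) univ v := by
      intro w h1 h2
      have a1 : w ∉ ({v.1} ×ˢ (univ.erase v.2)) := fun hh =>
        h1 (mem_singleton.1 (mem_product.1 hh).1)
      have a2 := card_insert_of_notMem a1
      simp only [card_product, card_singleton, card_erase_of_mem (mem_univ _), card_univ,
        Fintype.card_fin] at a2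
      refine le_trans (by omega : m - 2 ≤ (insert w ({v.1} ×ˢ (univ.erase v.2))).card)
        (card_le_card ?_)
      intro z hz
      rw [mem_filter]
      refine ⟨mem_univ _, ?_⟩
      rcases mem_insert.1 hz with rfl | hz
      · exact h2
      · simp only [mem_product, mem_singleton, mem_erase, mem_univ, and_true, Ne,
          Fin.ext_iff] at hz
        simp only [ringG]
        omega
    by_cases hv : v.2.val = 0
    · refine key (pv v.1) ?_ ?_
      · simp only [hpv, Ne, Fin.ext_iff]; split_ifs <;> omega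
      · simp only [hpv, ringG]; split_ifs <;> omega
    · refine key (nx v.1) ?_ ?_
      · simp only [hnx, Ne, Fin.ext_iff]; split_ifs <;> omega
      · simp only [hnx, ringG, true_and]; split_ifs <;> simp <;> omega

theorem star_iff' [Fintype V] {n : ℕ} :
    SimpleGraph.IsContained (completeBipartiteGraph (Fin 1) (Fin n)) G ↔
      ∃ v, n ≤ deg G univ v := by
  constructor
  · rintro ⟨φ⟩
    refine ⟨φ (Sum.inl 0), ?_⟩
    have h2 := card_le_card_of_injOn (s := (univ : Finset (Fin n)))
      (t := univ.filter (fun w => G.Adj (φ (Sum.inl 0)) w)) (fun s => φ (Sum.inr s)) (by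
        intro s _
        exact mem_coe.2 (mem_filter.2 ⟨mem_univ _, φ.toHom.map_adj (by simp)⟩)) (by
        intro s _ t _ he
        exact Sum.inr_injective (φ.injective he))
    rwa [card_univ, Fintype.card_fin] at h2
  · rintro ⟨v, hv⟩
    obtain ⟨e, he⟩ := Function.Embedding.exists_of_card_le_finset (α := Fin n)
      (s := univ.filter (fun w => G.Adj v w)) (by rw [Fintype.card_fin]; exact hv)
    have he' : ∀ s, G.Adj v (e s) := fun s => (mem_filter.1 (mem_coe.1 (he ⟨s, rfl⟩))).2
    refine ⟨⟨⟨Sum.elim (fun _ => v) e, ?_⟩, ?_⟩⟩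
    · rintro (a | a) (b | b) h
      · simp at h
      · exact he' b
      · exact (he' a).symm
      · simp at h
    · rintro (a | a) (b | b) h
      · rw [Subsingleton.elim a b]
      · exact absurd h (he' b).ne
      · exact absurd h (he' a).ne.symm
      · exact congrArg _ (e.injective h)

theorem deg_compl [Fintype V] {H : SimpleGraph V} {v : V}
    (h : ∀ w, H.Adj v w ↔ v ≠ w ∧ ¬ G.Adj v w) :
    deg G univ v + deg H univ v + 1 = Fintype.card V := by
  have h1 := card_filter_add_card_filter_not (s := (univ : Finset V)) (fun w => G.Adj v w)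
  have h2 : univ.filter (fun w => ¬ G.Adj v w) = insert v (univ.filter (fun w => H.Adj v w)) := by
    ext w
    by_cases hw : w = v
    · simp [hw]
    · simp [hw, Ne.symm hw, h]
  rw [h2, card_insert_of_notMem (by simp)] at h1
  rw [← card_univ, ← h1]
  unfold deg
  omega

theorem star_iff [Fintype V] {n : ℕ} :
    SimpleGraph.IsContained (completeBipartiteGraph (Fin 1) (Fin n)) Gᶜ ↔
      ∃ v, deg G univ v + n + 1 ≤ Fintype.card V := by
  rw [star_iff']
  refine exists_congr fun v => ?_
  have := deg_compl (G := G) (H := Gᶜ) (v := v) (fun w => G.compl_adj v w)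
  omega

theorem not_ram [Fintype V] {m n p : ℕ}
    (h1 : ¬ SimpleGraph.IsContained (SimpleGraph.cycleGraph m) G)
    (h2 : ∀ v, Fintype.card V ≤ deg G univ v + n)
    (h : ∀ H : SimpleGraph (Fin p), SimpleGraph.IsContained (SimpleGraph.cycleGraph m) H ∨
      SimpleGraph.IsContained (completeBipartiteGraph (Fin 1) (Fin n)) Hᶜ) :
    Fintype.card V < p := by
  by_contra hp
  obtain ⟨e⟩ : Nonempty (Fin p ↪ V) :=
    Function.Embedding.nonempty_of_card_le (by rw [Fintype.card_fin]; omega)
  rcases h (G.comap e) with h | h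
  · exact h1 (h.trans ⟨⟨⟨e, fun h => h⟩, e.injective⟩⟩)
  · have : SimpleGraph.IsContained (G.comap e)ᶜ Gᶜ :=
      ⟨⟨⟨e, fun h => ⟨fun he => h.1 (e.injective he), h.2⟩⟩, e.injective⟩⟩
    obtain ⟨v, hv⟩ := star_iff.1 (h.trans this)
    have := h2 v
    omega

end RCS
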