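import Pool.Agent.P.MP_848074_co.Struct
import Pool.Agent.P.MP_848074_co.Lower

open Finset
open scoped Classical

namespace RCS

/-- orders `p` of complete graphs all of whose colourings contain the cycle or the star -/
def RamSet (m n : ℕ) : Set ℕ :=
  {p | 0 < p ∧ ∀ G : SimpleGraph (Fin p),
    SimpleGraph.IsContained (SimpleGraph.cycleGraph m) G ∨
      SimpleGraph.IsContained (completeBipartiteGraph (Fin 1) (Fin n)) Gᶜ}

theorem b_pos {m n b : ℕ} (h4 : 4 ≤ m) (hn : n + m ≤ 2 ^ b) : 1 ≤ b := by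
  rcases Nat.eq_zero_or_pos b with rfl | h
  · simp at hn; omega
  · exact h

theorem upper_mem {m n b : ℕ} (hm : Even m) (h4 : 4 ≤ m) (hmb : 10 ^ 40 * b ^ 8 ≤ m)
    (hn : n + m ≤ 2 ^ b) : n + m - 1 ∈ RamSet m n := by
  refine ⟨by omega, fun G => ?_⟩
  rw [or_iff_not_imp_right, star_iff]
  intro h
  push Not at h
  have : Nonempty (Fin (n + m - 1)) := ⟨⟨0, by omega⟩⟩
  refine (hasC_of_minDeg (b_pos h4 hn) hmb hm (by rw [Fintype.card_fin]; omega)
    (fun v => ?_)).isContained (by omega)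
  have := h v
  rw [Fintype.card_fin] at this
  omega

theorem lower_tree {m n i N p : ℕ} (h4 : 4 ≤ m) (h1 : i * (N - n) + 1 ≤ N)
    (h2 : N ≤ i * (m - 1)) (hp : p ∈ RamSet m n) : N < p := by
  obtain ⟨G, g1, g2⟩ := tree_exists (by omega) h1 h2
  simpa using not_ram g1 (fun v => by have := g2 v; rw [Fintype.card_fin]; omega) hp.2

theorem lower_formula {m n t p : ℕ} (h4 : 4 ≤ m) (hn : 1 ≤ n) (ht : t = (n - 1) / (m - 1) + 1)
    (hp : p ∈ RamSet m n) : max (t * (m - 1)) (n + (n - 1) / t) + 1 ≤ p := by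
  have a1 : (t - 1) * (m - 1) ≤ n - 1 := by
    rw [ht, Nat.add_sub_cancel]; exact Nat.div_mul_le_self _ _
  have a2 : n - 1 < t * (m - 1) := by
    rw [ht, mul_comm]; exact Nat.lt_mul_div_succ _ (by omega)
  obtain ⟨s, rfl⟩ : ∃ s, t = s + 1 := ⟨_, ht⟩
  rw [Nat.add_sub_cancel] at a1
  have b1 : (s + 1) * (m - 1) < p := by
    refine lower_tree (i := s + 1) h4 ?_ le_rfl hp
    obtain ⟨e, he⟩ : ∃ e, (s + 1) * (m - 1) = n + e := ⟨(s + 1) * (m - 1) - n, by omega⟩
    rw [he, Nat.add_sub_cancel_left]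
    have c1 : e + 1 ≤ m - 1 := by rw [add_mul] at he; omega
    have c2 : s * (e + 1) ≤ s * (m - 1) := Nat.mul_le_mul_left _ c1
    rw [mul_add] at c2
    rw [add_mul]
    omega
  have b2 : n + (n - 1) / (s + 1) < p := by
    have c1 : (s + 1) * ((n - 1) / (s + 1)) ≤ n - 1 := Nat.mul_div_le _ _
    have c2 : (n - 1) / (s + 1) < m - 1 := Nat.div_lt_of_lt_mul a2
    refine lower_tree (i := s + 1 + 1) h4 ?_ ?_ hp
    · rw [Nat.add_sub_cancel_left, add_mul (s + 1)]; omega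
    · rw [add_mul (s + 1)]; omega
  omega

theorem formula_mem {m n b t : ℕ} (hm : Even m) (h4 : 4 ≤ m) (hmb : 10 ^ 40 * b ^ 8 ≤ m)
    (hn : n + m ≤ 2 ^ b) (h1 : 2000 * m ≤ n) (h2 : 300 * (n + m) ≤ m ^ 2)
    (ht : t = (n - 1) / (m - 1) + 1) :
    max (t * (m - 1)) (n + (n - 1) / t) + 1 ∈ RamSet m n := by
  have hb := b_pos h4 hn
  have h8 : 1 ≤ b ^ 8 := Nat.one_le_pow _ _ hb
  have a1 : (t - 1) * (m - 1) ≤ n - 1 := by
    rw [ht, Nat.add_sub_cancel]; exact Nat.div_mul_le_self _ _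
  have a3 : 2000 ≤ t - 1 := by
    rw [ht, Nat.add_sub_cancel, Nat.le_div_iff_mul_le (by omega)]; omega
  obtain ⟨s, rfl⟩ : ∃ s, t = s + 1 := ⟨_, ht⟩
  rw [Nat.add_sub_cancel] at a1 a3
  have a4 : n - 1 < (s + 1) * ((n - 1) / (s + 1) + 1) := Nat.lt_mul_div_succ _ (by omega)
  have hup := lower_formula h4 (by omega) ht (upper_mem hm h4 hmb hn)
  generalize (n - 1) / (s + 1) = q at a4 hup ⊢
  obtain ⟨δ, hδ⟩ : ∃ δ, max ((s + 1) * (m - 1)) (n + q) + 1 = n + δ :=
    ⟨max ((s + 1) * (m - 1)) (n + q) + 1 - n, by omega⟩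
  have a5 : (s + 1) * (q + 1) ≤ (s + 1) * δ := Nat.mul_le_mul_left _ (by omega)
  have a6 : (s + 1) * (m - 1) < n + δ := by omega
  rw [hδ] at hup ⊢
  refine ⟨by omega, fun G => ?_⟩
  rw [or_iff_not_imp_right, star_iff]
  intro h
  push Not at h
  have : Nonempty (Fin (n + δ)) := ⟨⟨0, by omega⟩⟩
  refine HasC.isContained (by omega) ?_
  by_contra hC
  obtain ⟨i, i1, i2⟩ := window_of_minDeg (G := G) (δ := δ) hb hmb hm
    (by rw [Fintype.card_fin]; omega) (by rw [Fintype.card_fin]; omega) (by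
      by_contra hcon
      obtain ⟨m', rfl⟩ : ∃ m', m = m' + 1 := ⟨m - 1, by omega⟩
      rw [Nat.add_sub_cancel] at a1
      have c1 : (s + 1) * (1000 * δ) ≤ (s + 1) * (999 * (m' + 1)) :=
        Nat.mul_le_mul_left _ (by omega)
      have c2 : s * 2000 ≤ s * m' := Nat.mul_le_mul_left _ (by omega)
      have c3 : 2000 * m' ≤ s * m' := Nat.mul_le_mul_right _ a3
      nlinarith) (by omega)
    (fun v => by have := h v; rw [Fintype.card_fin] at this; omega) hC
  rw [Fintype.card_fin] at i1 i2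
  rcases le_or_gt i (s + 1) with hi | hi
  · have := Nat.mul_le_mul_right (m - 1) hi
    omega
  · have := Nat.mul_le_mul_right δ (show s + 1 + 1 ≤ i from hi)
    rw [add_mul (s + 1)] at this
    omega

theorem lower_big {m n p : ℕ} (h4 : 4 ≤ m) (hn : (m - 2) * (m - 3) ≤ n) (hp : p ∈ RamSet m n) :
    n + m - 1 ≤ p ∨ n = (m - 2) * (m - 3) := by
  rcases hn.eq_or_lt with h | h
  · exact Or.inr h.symm
  left
  have a1 : (m - 2) * ((n + m - 3) / (m - 2)) ≤ n + m - 3 := Nat.mul_div_le _ _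
  have a2 : n + m - 3 < (m - 2) * ((n + m - 3) / (m - 2) + 1) :=
    Nat.lt_mul_div_succ _ (by omega)
  have a3 : m - 2 ≤ (n + m - 3) / (m - 2) := by
    rw [Nat.le_div_iff_mul_le (by omega)]
    have : (m - 2) * (m - 2) = (m - 2) * (m - 3) + (m - 2) := by
      rw [← Nat.mul_add_one]; congr 1; omega
    omega
  have := lower_tree (i := (n + m - 3) / (m - 2)) (N := n + m - 2) h4 (by
    rw [show n + m - 2 - n = m - 2 by omega, mul_comm]; omega) (by
    rw [show m - 1 = m - 2 + 1 by omega, mul_add, mul_comm]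
    rw [mul_add] at a2
    omega) hp
  omega

theorem lower_ring {m j p : ℕ} (h4 : 4 ≤ m) (hj : m < 2 * j)
    (hp : p ∈ RamSet m ((j - 1) * (m - 2))) : j * (m - 2) + 1 ≤ p := by
  obtain ⟨g1, g2⟩ := ring_exists h4 hj
  have e : j * (m - 2) = (j - 1) * (m - 2) + (m - 2) := by
    rw [← Nat.add_one_mul]; congr 1; omega
  have := not_ram g1 (fun v => by
    have := g2 v
    simp only [Fintype.card_prod, Fintype.card_fin]
    omega) hp.2
  simpa using this

end RCS
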