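import Pool.Agent.P.MP_848074_co.Exact

open Finset
open scoped Classical

namespace RCS

variable {V : Type*} {G : SimpleGraph V}

theorem links {B B' T : Finset V} {d u D : ℕ} (hE : Ex G B d u D) (hT : T ⊆ B) (hB' : B' ⊆ B) :
    ∀ k, k * D ≤ u → k * D < T.card → k * D < B'.card →
      ∃ (a t : ℕ → V) (L : ℕ → Finset V),
        (∀ i < k, a i ∈ B' ∧ t i ∈ T ∧ L i ⊆ B ∧ PS G (a i) (t i) (L i) ∧ (L i).card ≤ D ∧
          ∀ z ∈ L i, z ∈ T → z = t i) ∧
        ∀ i < k, ∀ j < k, i ≠ j → Disjoint (L i) (L j) := by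
  intro k
  induction k with
  | zero =>
    intro _ h _
    obtain ⟨v, -⟩ := hE.1
    exact ⟨fun _ => v, fun _ => v, fun _ => ∅, by simp, by simp⟩
  | succ k ih =>
    intro h1 h2 h3
    rw [add_mul, one_mul] at h1 h2 h3
    obtain ⟨a, t, L, hL, hdis⟩ := ih (by omega) (by omega) (by omega)
    set Z := (range k).biUnion L with hZ
    have hZc : Z.card ≤ k * D := by
      have := card_biUnion_le_card_mul (range k) L D
        (fun i hi => (hL i (mem_range.1 hi)).2.2.2.2.1)
      rwa [card_range] at this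
    obtain ⟨a0, ha0, ha0Z⟩ := exists_mem_notMem_of_card_lt_card (s := Z) (t := B') (by omega)
    obtain ⟨t0, ht0, ht0Z⟩ := exists_mem_notMem_of_card_lt_card (s := Z) (t := T) (by omega)
    obtain ⟨P, p1, p2, p3⟩ := hE.2.2 Z (by omega) a0 (mem_sdiff.2 ⟨hB' ha0, ha0Z⟩) t0
      (mem_sdiff.2 ⟨hT ht0, ht0Z⟩)
    obtain ⟨z, hz, P1, q1, q2, q3⟩ := p2.trim T ht0
    have hd1 : ∀ i < k, Disjoint P1 (L i) := by
      intro i hi
      rw [disjoint_left]
      intro w hw hw'
      exact (mem_sdiff.1 (p1 (q1 hw))).2 (mem_biUnion.2 ⟨i, mem_range.2 hi, hw'⟩)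
    refine ⟨Function.update a k a0, Function.update t k z, Function.update L k P1, ?_, ?_⟩
    · intro i hi
      rcases Nat.lt_succ_iff_lt_or_eq.1 hi with hi | rfl
      · simp only [Function.update_of_ne hi.ne]
        exact hL i hi
      · simp only [Function.update_self]
        exact ⟨ha0, hz, (q1.trans p1).trans sdiff_subset, q2, (card_le_card q1).trans p3, q3⟩
    · intro i hi j hj hij
      rcases Nat.lt_succ_iff_lt_or_eq.1 hi with hi | rfl <;>
        rcases Nat.lt_succ_iff_lt_or_eq.1 hj with hj | rfl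
      · simp only [Function.update_of_ne hi.ne, Function.update_of_ne hj.ne]
        exact hdis i hi j hj hij
      · simp only [Function.update_of_ne hi.ne, Function.update_self]
        exact (hd1 i hi).symm
      · simp only [Function.update_of_ne hj.ne, Function.update_self]
        exact hd1 j hj
      · exact absurd rfl hij

theorem pigeon (p r : ℕ → ℕ) (k m g g2 : ℕ) (hg2 : 0 < g2) (hp : ∀ i < k, p i ≤ m)
    (hinj : ∀ i < k, ∀ j < k, p i = p j → i = j) (hk : 2 * (m / g2 + 1) * g < k) :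
    ∃ i < k, ∃ j < k, p i + g ≤ p j ∧ p j < p i + g2 ∧ r i % 2 = r j % 2 := by
  obtain ⟨y, -, hy⟩ := exists_lt_card_fiber_of_mul_lt_card_of_maps_to (s := range k)
    (t := range (m / g2 + 1) ×ˢ range 2) (f := fun i => (p i / g2, r i % 2)) (n := g) (by
      intro i hi
      rw [mem_product, mem_range, mem_range]
      exact ⟨Nat.lt_succ_of_le (Nat.div_le_div_right (hp i (mem_range.1 hi))),
        Nat.mod_lt _ (by norm_num)⟩)
    (by rw [card_product, card_range, card_range, card_range, mul_comm _ 2]; exact hk)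
  set F := (range k).filter (fun i => (p i / g2, r i % 2) = y) with hF
  have hne : F.Nonempty := card_pos.1 (by omega)
  obtain ⟨i, hi, hmin⟩ := exists_min_image F p hne
  obtain ⟨j, hj, hmax⟩ := exists_max_image F p hne
  have hc : F.card ≤ (Icc (p i) (p j)).card := by
    apply card_le_card_of_injOn p
    · intro z hz
      exact mem_coe.2 (mem_Icc.2 ⟨hmin z hz, hmax z hz⟩)
    · intro z hz w hw he
      exact hinj z (mem_range.1 (mem_filter.1 hz).1) w (mem_range.1 (mem_filter.1 hw).1) he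
  rw [Nat.card_Icc] at hc
  rw [mem_filter, mem_range] at hi hj
  have he := hi.2.trans hj.2.symm
  rw [Prod.mk.injEq] at he
  refine ⟨i, hi.1, j, hj.1, by omega, ?_, he.2⟩
  have a1 := Nat.div_add_mod (p i) g2
  have a2 := Nat.div_add_mod (p j) g2
  have a3 := Nat.mod_lt (p j) hg2
  rw [← he.1] at a2
  omega

theorem detour {B B' T : Finset V} {d u D lo hi m g2 k : ℕ} {c : V → ℕ} {x y : V}
    (hE : Ex G B d u D) (hp : PS G x y T) (hT : T ⊆ B) (hB' : B' ⊆ B \ T)
    (hex : Exact G B' lo hi c) (hhi : hi < B'.card) (hm : T.card ≤ m) (hg2 : 0 < g2)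
    (hk : 2 * (m / g2 + 1) * (lo + 2 * D + 1) < k) (hkD : k * D ≤ hi) (hu : hi ≤ u)
    (hkT : k * D < T.card) (hg : g2 + 4 ≤ hi) :
    ∃ T', T' ⊆ B ∧ PS G x y T' ∧ T'.card = T.card + 2 := by
  obtain ⟨a, t, L, hL, hdis⟩ := links hE hT (hB'.trans sdiff_subset) k (by omega) hkT (by omega)
  obtain ⟨f, f1, f2, f3, f4, f5, f6⟩ := hp.exists_fun
  have hpos : ∀ i, ∃ q, i < k → q < T.card ∧ f q = t i := by
    intro i
    by_cases hi : i < k
    · obtain ⟨q, h1, h2⟩ := f6 _ (hL i hi).2.1
      exact ⟨q, fun _ => ⟨h1, h2⟩⟩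
    · exact ⟨0, fun h => absurd h hi⟩
  choose p hpp using hpos
  obtain ⟨i, hi', j, hj, g1, g2', g3⟩ := pigeon p (fun i => p i + (L i).card + c (a i)) k m
    (lo + 2 * D + 1) g2 hg2 (fun i hi => by have := (hpp i hi).1; omega) (by
      intro i hi j hj he
      by_contra hij
      have e : t i = t j := by rw [← (hpp i hi).2, ← (hpp j hj).2, he]
      exact disjoint_left.1 (hdis i hi j hj hij) (hL i hi).2.2.2.1.right_mem
        (e ▸ (hL j hj).2.2.2.1.right_mem)) hk
  have hij : i ≠ j := by rintro rfl; omega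
  have hd := disjoint_left.1 (hdis i hi' j hj hij)
  obtain ⟨i1, i2, i3, i4, i5, i6⟩ := hL i hi'
  obtain ⟨j1, j2, j3, j4, j5, j6⟩ := hL j hj
  obtain ⟨pi1, pi2⟩ := hpp i hi'
  obtain ⟨pj1, pj2⟩ := hpp j hj
  obtain ⟨E, e1, e2, e3⟩ := hex ((L i).erase (a i) ∪ (L j).erase (a j)) (a i) (a j)
    (p j - p i + 5 - (L i).card - (L j).card)
    (by
      have := hd i4.left_mem
      simp only [mem_sdiff, mem_union, mem_erase] at *; tauto)
    (by
      have : a j ∉ L i := fun h => hd h j4.left_mem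
      simp only [mem_sdiff, mem_union, mem_erase] at *; tauto)
    (fun h => hd i4.left_mem (h ▸ j4.left_mem)) (by omega) (by
      have a1 := card_union_le ((L i).erase (a i)) ((L j).erase (a j))
      have a2 := card_erase_add_one i4.left_mem
      have a3 := card_erase_add_one j4.left_mem
      omega) (by omega)
  have hE' : ∀ z ∈ E, z ∈ B ∧ z ∉ T ∧ (z ∈ L i → z = a i) ∧ (z ∈ L j → z = a j) := by
    intro z hz
    have h1 := mem_sdiff.1 (e1 hz)
    have h2 := mem_sdiff.1 (hB' h1.1)
    simp only [mem_union, mem_erase] at h1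
    tauto
  obtain ⟨s1, s2⟩ := seg (G := G) f T.card f1 f4 0 (p i) (by omega)
  obtain ⟨r1, r2⟩ := seg (G := G) f T.card f1 f4 (p j) (T.card - 1 - p j) (by omega)
  rw [zero_add] at s1 s2
  rw [show p j + (T.card - 1 - p j) = T.card - 1 by omega] at r1 r2
  rw [f2, pi2] at s1
  rw [f3, pj2] at r1
  set S := (Icc 0 (p i)).image f with hS
  set R := (Icc (p j) (T.card - 1)).image f with hR
  have hST : S ⊆ T := by
    intro z hz
    obtain ⟨q, hq, rfl⟩ := mem_image.1 hz
    exact f5 q (by rw [mem_Icc] at hq; omega)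
  have hRT : R ⊆ T := by
    intro z hz
    obtain ⟨q, hq, rfl⟩ := mem_image.1 hz
    exact f5 q (by rw [mem_Icc] at hq; omega)
  have hSR : ∀ z ∈ S, z ∉ R := by
    intro z hz hz'
    obtain ⟨q, hq, rfl⟩ := mem_image.1 hz
    obtain ⟨q', hq', he⟩ := mem_image.1 hz'
    rw [mem_Icc] at hq hq'
    have := f1 _ _ (by omega) (by omega) he
    omega
  have d1 : ∀ z ∈ S, z ∈ L i → z = t i := fun z h h' => i6 z h' (hST h)
  have k1 := s1.join i4.symm d1
  have c1 := card_join s1.right_mem i4.right_mem d1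
  have d2 : ∀ z ∈ S ∪ L i, z ∈ E → z = a i := by
    intro z h h'
    rcases mem_union.1 h with h | h
    · exact absurd (hST h) (hE' z h').2.1
    · exact (hE' z h').2.2.1 h
  have k2 := k1.join e2 d2
  have c2 := card_join k1.right_mem e2.left_mem d2
  have d3 : ∀ z ∈ S ∪ L i ∪ E, z ∈ L j → z = a j := by
    intro z h h'
    rcases mem_union.1 h with h | h
    · rcases mem_union.1 h with h | h
      · have := j6 z h' (hST h)
        exact absurd (this ▸ r1.left_mem) (hSR z h)
      · exact absurd h' (hd h)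
    · exact (hE' z h).2.2.2 h'
  have k3 := k2.join j4 d3
  have c3 := card_join k2.right_mem j4.left_mem d3
  have d4 : ∀ z ∈ S ∪ L i ∪ E ∪ L j, z ∈ R → z = t j := by
    intro z h h'
    rcases mem_union.1 h with h | h
    · rcases mem_union.1 h with h | h
      · rcases mem_union.1 h with h | h
        · exact absurd h' (hSR z h)
        · have := i6 z h (hRT h')
          exact absurd h' (hSR z (this ▸ s1.right_mem))
      · exact absurd (hRT h') (hE' z h).2.1
    · exact j6 z h (hRT h')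
  have k4 := k3.join r1 d4
  have c4 := card_join k3.right_mem r1.left_mem d4
  refine ⟨_, ?_, k4, by omega⟩
  exact union_subset (union_subset (union_subset (union_subset (hST.trans hT) i3)
    (fun z hz => (hE' z hz).1)) j3) (hRT.trans hT)

/-- numerical side conditions -/
structure Par (m b h d u hi g2 k D : ℕ) : Prop where
  h2 : 2 ≤ h
  hb : 300000 * b ≤ h
  hD : D = 4 * h * (b + 1) + 3
  hd : 128 * d ≤ m
  hu : 4 * h * u ≤ d
  hhi : hi + D * (2 * D + 1) + 3 ≤ u
  hg : g2 + 4 ≤ hi
  hg0 : 0 < g2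
  hk : 2 * (m / g2 + 1) * (D * (2 * D + 1) + D + 1 + 2 * D + 1) < k
  hkD : k * D + 1 < hi
  hlo : D * (2 * D + 1) + D + 1 < hi

theorem Par.exact {m b h d u hi g2 k D : ℕ} (P : Par m b h d u hi g2 k D) {W : Finset V}
    (hne : W.Nonempty) (hW : W.card ≤ 2 ^ b)
    (hX : W.card ≤ 4 * (W.filter (fun v => m ≤ 4 * deg G W v)).card) :
    ∃ B ⊆ W, ∃ c : V → ℕ, Exact G B (D * (2 * D + 1) + D + 1) hi c ∧ hi < B.card ∧
      ∃ x ∈ B, ∃ y ∈ B, G.Adj x y ∧ (c x + c y) % 2 = 1 := by
  refine exists_exact P.h2 (by have := P.hb; omega) hne hW ?_ P.hu P.hD P.hhi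
  set X := W.filter (fun v => m ≤ 4 * deg G W v) with hXd
  have h1 : X.card * m ≤ ∑ v ∈ X, 4 * deg G W v := by
    have := card_nsmul_le_sum X (fun v => 4 * deg G W v) m (fun v hv => (mem_filter.1 hv).2)
    simpa using this
  rw [← mul_sum] at h1
  have h2 : ∑ v ∈ X, deg G W v ≤ ∑ v ∈ W, deg G W v :=
    sum_le_sum_of_subset (filter_subset _ _)
  have h3 : 128 * d * W.card ≤ m * (4 * X.card) := Nat.mul_le_mul P.hd hX
  nlinarith

theorem Par.grow {m b h d u hi g2 k D : ℕ} (P : Par m b h d u hi g2 k D) (hm : Even m)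
    {B : Finset V} (hE : Ex G B d u D) (hB : B.card ≤ 2 ^ b)
    (hlow : 4 * (B.filter (fun v => 5 * deg G B v < 4 * m)).card + 3 * m ≤ 3 * B.card) :
    HasC G m := by
  set Low := B.filter (fun v => 5 * deg G B v < 4 * m) with hLow
  have hum : 8 * u ≤ d := by
    have : 4 * 2 * u ≤ 4 * h * u := Nat.mul_le_mul_right _ (by have := P.h2; omega)
    have := P.hu
    omega
  have a1 := P.hd
  have a2 := P.hhi
  have a3 := P.hkD
  have a4 := P.hlo
  obtain ⟨B0, hB0, c0, hex0, -, x, hx, y, hy, hxy, hc0⟩ := P.exact (G := G) hE.1 hB (by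
    have : B ⊆ B.filter (fun v => m ≤ 4 * deg G B v) ∪ Low := by
      intro v hv
      rw [mem_union, mem_filter, mem_filter]
      by_cases h : m ≤ 4 * deg G B v
      · exact Or.inl ⟨hv, h⟩
      · exact Or.inr ⟨hv, by omega⟩
    have b1 := card_le_card this
    have b2 := card_union_le (B.filter (fun v => m ≤ 4 * deg G B v)) Low
    omega)
  obtain ⟨T0, t1, t2, t3⟩ := hex0 ∅ x y (2 * (hi / 2)) (by simpa using hx) (by simpa using hy)
    hxy.ne (by omega) (by rw [card_empty]; omega) (by omega)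
  have key : ∀ i, 2 * (hi / 2) + 2 * i ≤ m →
      ∃ T, T ⊆ B ∧ PS G x y T ∧ T.card = 2 * (hi / 2) + 2 * i := by
    intro i
    induction i with
    | zero => intro _; exact ⟨T0, t1.trans (sdiff_subset.trans hB0), t2, by omega⟩
    | succ i ih =>
      intro hi'
      obtain ⟨T, s1, s2, s3⟩ := ih (by omega)
      have hW : (B \ T).card + T.card = B.card := card_sdiff_add_card_eq_card s1
      by_cases hX : (B \ T).card ≤ 4 * ((B \ T).filter (fun v => m ≤ 4 * deg G (B \ T) v)).card
      · obtain ⟨B', b1, c, b2, b3, -⟩ := P.exact (G := G) (W := B \ T) (card_pos.1 (by omega))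
          (by omega) hX
        obtain ⟨T', r1, r2, r3⟩ := detour (m := m) hE s2 s1 b1 b2 b3 (by omega) P.hg0 P.hk
          (by omega) (by omega) (by omega) P.hg
        exact ⟨T', r1, r2, by omega⟩
      · set X := (B \ T).filter (fun v => m ≤ 4 * deg G (B \ T) v) with hXd
        have b1 : (B \ T).card ≤ ((B \ T) \ (X ∪ Low)).card + (X ∪ Low).card :=
          card_le_card_sdiff_add_card
        have b2 := card_union_le X Low
        obtain ⟨w1, h1, w2, h2, hne⟩ := one_lt_card.1
          (show 1 < ((B \ T) \ (X ∪ Low)).card by omega)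
        have hw : ∀ w ∈ (B \ T) \ (X ∪ Low), w ∈ B ∧ w ∉ T ∧ m + 1 ≤ 2 * deg G T w := by
          intro w hw
          rw [mem_sdiff, mem_union, not_or, mem_filter, mem_filter] at hw
          have c1 := mem_sdiff.1 hw.1
          have c2 : ¬ m ≤ 4 * deg G (B \ T) w := fun h => hw.2.1 ⟨hw.1, h⟩
          have c3 : ¬ 5 * deg G B w < 4 * m := fun h => hw.2.2 ⟨c1.1, h⟩
          have c4 := deg_union_le (G := G) (B \ T) T w
          rw [sdiff_union_of_subset s1] at c4
          exact ⟨c1.1, c1.2, by omega⟩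
        obtain ⟨u1, u2, u3⟩ := hw w1 h1
        obtain ⟨v1, v2, v3⟩ := hw w2 h2
        have p1 := s2.ins u2 (by omega)
        have hn : w2 ∉ insert w1 T := by simp [hne.symm, v2]
        have p2 := p1.ins hn (by
          have := deg_mono (G := G) (subset_insert w1 T) w2
          rw [card_insert_of_notMem u2]; omega)
        refine ⟨_, insert_subset v1 (insert_subset u1 s1), p2, ?_⟩
        rw [card_insert_of_notMem hn, card_insert_of_notMem u2]; omega
  obtain ⟨r, hr⟩ := hm
  obtain ⟨T, -, s2, s3⟩ := key (r - hi / 2) (by omega)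
  exact ⟨x, y, T, s2, hxy.symm, by omega⟩

end RCS
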