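import Pool.Agent.P.MP_848074_co.Core

open Finset
open scoped Classical

namespace RCS

variable {V : Type*} {G : SimpleGraph V}

theorem NoEar.lt {Q T : Finset V} {ρ : ℕ} (h : NoEar G Q T ρ) {q q' o o' : V} {E : Finset V}
    (hq : q ∈ Q \ T) (hq' : q' ∈ Q \ T) (hne : q ≠ q') (ha : G.Adj q o) (ha' : G.Adj o' q')
    (hp : PS G o o' E) (hE : ∀ a ∈ E, a ∉ Q ∪ T) : ρ < E.card + 2 := by
  have h1 : q' ∉ E := fun hh => hE _ hh (mem_union_left _ (mem_sdiff.1 hq').1)
  have h2 : q ∉ insert q' E := by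
    rw [mem_insert, not_or]
    exact ⟨hne, fun hh => hE _ hh (mem_union_left _ (mem_sdiff.1 hq).1)⟩
  have hc : (insert q (insert q' E)).card = E.card + 2 := by
    rw [card_insert_of_notMem h2, card_insert_of_notMem h1]
  have := h q q' _ hq hq' hne (PS.cons ha h2 (hp.snoc ha' h1)) (by
    intro a h3 h4
    simp only [mem_insert] at h3
    rcases h3 with h3 | h3 | h3
    · exact Or.inl h3
    · exact Or.inr h3
    · exact absurd h4 (hE a h3)) (by have := hp.card_pos; omega)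
  omega

theorem NoEar.deg_ge {Q T Ω : Finset V} {ρ : ℕ} (h : NoEar G Q T ρ) {q o y : V} {r : ℕ}
    (hq : q ∈ Q \ T) (ha : G.Adj q o) (hy : y ∈ ball G (Ω \ (Q ∪ T)) o r) (hr : r + 3 ≤ ρ) :
    deg G Ω y ≤ deg G (Ω \ (Q ∪ T)) y + T.card + 1 := by
  obtain ⟨E, e1, e2, e3⟩ := mem_ball.1 hy
  have h1 : Ω.filter (fun w => G.Adj y w) ⊆
      (Ω \ (Q ∪ T)).filter (fun w => G.Adj y w) ∪ insert q T := by
    intro w hw
    rw [mem_filter] at hw
    by_cases hwT : w ∈ T
    · exact mem_union_right _ (mem_insert_of_mem hwT)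
    by_cases hwQ : w ∈ Q
    · by_cases hwq : w = q
      · exact mem_union_right _ (hwq ▸ mem_insert_self _ _)
      · have := h.lt hq (mem_sdiff.2 ⟨hwQ, hwT⟩) (Ne.symm hwq) ha hw.2 e2
          (fun a ha => (mem_sdiff.1 (e1 ha)).2)
        omega
    · exact mem_union_left _ (mem_filter.2 ⟨mem_sdiff.2 ⟨hw.1, by simp [hwQ, hwT]⟩, hw.2⟩)
  have h2 := (card_le_card h1).trans (card_union_le _ _)
  have h3 := card_insert_le q T
  unfold deg
  omega

theorem Par.growth [Fintype V] {m b h d u hi g2 k D : ℕ} (P : Par m b h d u hi g2 k D)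
    (hm : Even m) (hC : ¬ HasC G m) (hV : (univ : Finset V).card ≤ 2 ^ b)
    (hdeg : ∀ v, m ≤ deg G univ v + 1) {r : ℕ} (hr : r = 100000 * (b + 1))
    (hbig : 1000 * ((b + 2) * (2 * r + 1) + 1) ≤ m) :
    ∀ j, j ≤ b + 1 → ∀ (U : Finset V) (v : V), U.card ≤ r + 2 → v ∉ U →
      2 ^ j ≤ (ball G (univ \ U) v (j * (2 * r + 1))).card := by
  intro j
  induction j with
  | zero =>
    intro _ U v _ hv
    exact card_pos.2 ⟨v, self_mem_ball (by simpa using hv) _⟩
  | succ j ih =>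
    intro hj U v hU hv
    have hjb : j * (2 * r + 1) + 2 * (2 * r + 1) ≤ (b + 2) * (2 * r + 1) := by
      rw [← add_mul]; exact Nat.mul_le_mul_right _ (by omega)
    set J := j * (2 * r + 1) with hJ
    have hle : ∀ W : Finset V, (univ \ W).card ≤ 2 ^ b := fun W =>
      (card_le_card sdiff_subset).trans hV
    obtain ⟨Q, hQ, hc⟩ := P.core_near (G := G) hm hC (Ω := univ \ U) (v := v) (by simpa using hv)
      (hle U) (δ := m - r - 3) (μ := m / 50) (by omega) (by omega) (by omega) (by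
        intro y _
        have := hdeg y
        have := deg_le_sdiff (G := G) univ U y
        omega)
    rw [← hr] at hQ
    obtain ⟨x, y, T, pT, hx, hy, cT, cK, hE⟩ := hc.ears (ρ := 2 * (r + J) + 3) hC (by omega)
    have hout : ∀ q, ∃ o, q ∈ Q \ T → o ∉ Q ∪ T ∧ G.Adj q o := by
      intro q
      by_cases hq : q ∈ Q \ T
      · have hq' : q ∈ Q ∪ T := mem_union_left _ (mem_sdiff.1 hq).1
        obtain ⟨o, -, h1, h2⟩ := exists_nbr (G := G) (S := univ) (U := (Q ∪ T).erase q) (v := q)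
          (by have := hdeg q; have := card_erase_add_one hq'; omega)
        exact ⟨o, fun _ => ⟨fun hh => h1 (mem_erase.2 ⟨h2.ne.symm, hh⟩), h2⟩⟩
      · exact ⟨q, fun hh => absurd hh hq⟩
    choose o ho using hout
    set Ω := univ \ (Q ∪ T) with hΩ
    have hdisj : ∀ q ∈ Q \ T, ∀ q' ∈ Q \ T, q ≠ q' →
        Disjoint (ball G Ω (o q) (r + J)) (ball G Ω (o q') (r + J)) := by
      intro q hq q' hq' hne
      rw [disjoint_left]
      intro z h1 h2
      obtain ⟨T1, a1, b1, c1⟩ := mem_ball.1 h1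
      obtain ⟨T2, a2, b2, c2⟩ := mem_ball.1 h2
      obtain ⟨E, a, b', c⟩ := b1.trans b2.symm
      have := hE.lt hq hq' hne (ho q hq).2 (ho q' hq').2.symm b'
        (fun z hz => (mem_sdiff.1 (union_subset a1 a2 (a hz))).2)
      omega
    have hsize : ∀ q ∈ Q \ T, 2 ^ j ≤ (ball G Ω (o q) (r + J)).card := by
      intro q hq
      have hoΩ : o q ∈ Ω := mem_sdiff.2 ⟨mem_univ _, (ho q hq).1⟩
      obtain ⟨Q2, hQ2, hc2⟩ := P.core_near (G := G) hm hC hoΩ (hle _)
        (δ := m - 2 - 4 * (m / 50)) (μ := m / 8) (by omega) (by omega) (by omega) (by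
          intro z hz
          have := hdeg z
          have := hE.deg_ge (Ω := univ) hq (ho q hq).2 hz (by omega)
          rw [← hΩ] at this
          omega)
      rw [← hr] at hQ2
      obtain ⟨b1, hb1⟩ := hc2.1
      obtain ⟨L, l1, l2, l3⟩ := mem_ball.1 (hQ2 hb1)
      have hqL : q ∉ L := fun hh =>
        (mem_sdiff.1 (l1 hh)).2 (mem_union_left _ (mem_sdiff.1 hq).1)
      have pL := PS.cons (ho q hq).2 hqL l2
      have cL : (insert q L).card ≤ r + 2 := by rw [card_insert_of_notMem hqL]; omega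
      have hQ2c := hc2.card_ge
      obtain ⟨v', hv', hv'L⟩ := exists_mem_notMem_of_card_lt_card (s := insert q L) (t := Q2)
        (by omega)
      refine (ih (by omega) (insert q L) v' cL hv'L).trans (card_le_card ?_)
      have hsub : ball G (univ \ insert q L) v' J ⊆ Ω := by
        intro z hz
        by_contra hzΩ
        have hzK : z ∈ Q ∪ T := by
          by_contra hh
          exact hzΩ (mem_sdiff.2 ⟨mem_univ _, hh⟩)
        obtain ⟨T1, a1, b1', c1⟩ := mem_ball.1 hz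
        have hlink : ∃ a2 ∈ Q, ∃ L2, PS G v' a2 L2 ∧ L2 ⊆ T1 ∪ T ∧ L2.card ≤ T1.card + T.card := by
          rcases mem_union.1 hzK with hzQ | hzT
          · exact ⟨z, hzQ, T1, b1', subset_union_left, by omega⟩
          · obtain ⟨T2, s1, s2⟩ := pT.sub hzT
            obtain ⟨L2, t1, t2, t3⟩ := b1'.trans s2.symm
            have := card_le_card s1
            exact ⟨x, hx, L2, t2, t1.trans (union_subset_union (Subset.refl _) s1), by omega⟩
        obtain ⟨a2, ha2, L2, p2, s2, c2⟩ := hlink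
        refine hC (two_cores (hc.mono (by omega)) hc2 ?_ pL p2.symm (mem_sdiff.1 hq).1 ha2 hb1 hv'
          ?_ (by omega))
        · rw [disjoint_right]
          intro w hw hwQ
          exact (mem_sdiff.1 (ball_subset (hQ2 hw))).2 (mem_union_left _ hwQ)
        · rw [disjoint_right]
          intro w hw hw'
          rcases mem_union.1 (s2 hw) with h1 | h1
          · exact (mem_sdiff.1 (a1 h1)).2 hw'
          · rcases mem_insert.1 hw' with rfl | h2
            · exact (mem_sdiff.1 hq).2 h1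
            · exact (mem_sdiff.1 (l1 h2)).2 (mem_union_right _ h1)
      intro z hz
      exact ball_trans (hQ2 hv') (ball_of_subset hsub hz)
    set Bad := (Q \ T).filter (fun q => ¬ Disjoint (ball G Ω (o q) (r + J)) U) with hBad
    have hBc : Bad.card ≤ U.card := by
      have hex : ∀ q, ∃ p, q ∈ Bad → p ∈ ball G Ω (o q) (r + J) ∧ p ∈ U := by
        intro q
        by_cases hq : q ∈ Bad
        · obtain ⟨p, h1, h2⟩ := not_disjoint_iff.1 (mem_filter.1 hq).2
          exact ⟨p, fun _ => ⟨h1, h2⟩⟩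
        · exact ⟨q, fun hh => absurd hh hq⟩
      choose p hp using hex
      apply card_le_card_of_injOn p (fun q hq => (hp q hq).2)
      intro q hq q' hq' he
      by_contra hne
      exact disjoint_left.1 (hdisj q (mem_filter.1 hq).1 q' (mem_filter.1 hq').1 hne) (hp q hq).1
        (he ▸ (hp q' hq').1)
    have hQc := hc.card_ge
    have c1 : Q.card ≤ (Q \ T).card + T.card := card_le_card_sdiff_add_card
    have c2 : (Q \ T).card ≤ ((Q \ T) \ Bad).card + Bad.card := card_le_card_sdiff_add_card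
    obtain ⟨q1, h1, q2, h2, hne⟩ := one_lt_card.1 (show 1 < ((Q \ T) \ Bad).card by omega)
    have hin : ∀ q ∈ (Q \ T) \ Bad,
        ball G Ω (o q) (r + J) ⊆ ball G (univ \ U) v ((j + 1) * (2 * r + 1)) := by
      intro q hq
      rw [mem_sdiff] at hq
      have hd : Disjoint (ball G Ω (o q) (r + J)) U := by
        by_contra hh
        exact hq.2 (mem_filter.2 ⟨hq.1, hh⟩)
      have hs : ball G Ω (o q) (r + J) ⊆ univ \ U := fun z hz =>
        mem_sdiff.2 ⟨mem_univ _, disjoint_left.1 hd hz⟩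
      have ho1 : o q ∈ ball G (univ \ U) v (r + 1) :=
        ball_step (hQ (mem_sdiff.1 hq.1).1)
          (hs (self_mem_ball (mem_sdiff.2 ⟨mem_univ _, (ho q hq.1).1⟩) _)) (ho q hq.1).2
      intro z hz
      have := ball_trans ho1 (ball_of_subset hs hz)
      refine ball_mono (le_of_eq ?_) this
      rw [hJ]; ring
    have hu := card_le_card (union_subset (hin q1 h1) (hin q2 h2))
    rw [card_union_of_disjoint (hdisj q1 (mem_sdiff.1 h1).1 q2 (mem_sdiff.1 h2).1 hne)] at hu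
    have s1 := hsize q1 (mem_sdiff.1 h1).1
    have s2 := hsize q2 (mem_sdiff.1 h2).1
    rw [pow_succ]; omega

theorem exists_par (b m : ℕ) (hb : 1 ≤ b) (hm : 10 ^ 40 * b ^ 8 ≤ m) :
    ∃ h d u hi g2 k D, Par m b h d u hi g2 k D := by
  obtain ⟨h, hh⟩ : ∃ h, h = 300000 * b := ⟨_, rfl⟩
  obtain ⟨D, hD⟩ : ∃ D, D = 4 * h * (b + 1) + 3 := ⟨_, rfl⟩
  obtain ⟨u, hu⟩ : ∃ u, u = m / (512 * h) := ⟨_, rfl⟩
  have h0 : 300000 ≤ h := by omega
  have hD1 : D ≤ 2500000 * b ^ 2 := by rw [hD, hh]; nlinarith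
  have hD3 : 3 ≤ D := by omega
  have hu1 : 200000 * h * D ^ 3 ≤ u := by
    rw [hu, Nat.le_div_iff_mul_le (by omega)]
    calc 200000 * h * D ^ 3 * (512 * h)
        ≤ 200000 * h * (2500000 * b ^ 2) ^ 3 * (512 * h) := by gcongr
      _ = 144000000000000000000000000000000000000 * b ^ 8 := by rw [hh]; ring
      _ ≤ 10 ^ 40 * b ^ 8 := Nat.mul_le_mul_right _ (by norm_num)
      _ ≤ m := hm
  have hu2 : 512 * h * u ≤ m := by rw [hu]; exact Nat.mul_div_le _ _
  have hu3 : m < 512 * h * (u + 1) := by rw [hu]; exact Nat.lt_mul_div_succ _ (by omega)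
  have e1 : D ^ 2 * 3 ≤ D ^ 3 := by rw [pow_succ D 2]; exact Nat.mul_le_mul_left _ hD3
  have e2 : D * 3 ≤ D ^ 2 := by rw [pow_two]; exact Nat.mul_le_mul_left _ hD3
  have e3 : D * (2 * D + 1) = 2 * D ^ 2 + D := by ring
  have e4 : 300000 * D ^ 3 ≤ h * D ^ 3 := Nat.mul_le_mul_right _ h0
  rw [mul_assoc] at hu1
  obtain ⟨g2, hg2⟩ : ∃ g2, g2 + 4 + D * (2 * D + 1) + 3 = u :=
    ⟨u - (4 + D * (2 * D + 1) + 3), by omega⟩
  have hg : u + 1 ≤ 2 * g2 := by omega
  have hq : m / g2 ≤ 1024 * h := by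
    apply Nat.div_le_of_le_mul
    have : 512 * h * (u + 1) ≤ 512 * h * (2 * g2) := Nat.mul_le_mul_left _ hg
    nlinarith
  refine ⟨h, m / 128, u, g2 + 4, g2,
    2 * (m / g2 + 1) * (D * (2 * D + 1) + D + 1 + 2 * D + 1) + 1, D,
    by omega, by omega, hD, by omega, ?_, by omega, le_rfl, by omega, by omega, ?_, by omega⟩
  · have : 512 * h * u = 128 * (4 * h * u) := by ring
    omega
  · have a1 : 2 * (m / g2 + 1) * (D * (2 * D + 1) + D + 1 + 2 * D + 1) + 1
        ≤ 2 * (1025 * h) * (4 * D ^ 2) + h * D ^ 2 := by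
      have b1 : 1 ≤ h * D ^ 2 := Nat.mul_pos (by omega) (by omega)
      have b2 : 2 * (m / g2 + 1) * (D * (2 * D + 1) + D + 1 + 2 * D + 1)
          ≤ 2 * (1025 * h) * (4 * D ^ 2) := Nat.mul_le_mul (by omega) (by omega)
      omega
    have a2 := Nat.mul_le_mul_right D a1
    have a3 : (2 * (1025 * h) * (4 * D ^ 2) + h * D ^ 2) * D = 8201 * (h * D ^ 3) := by ring
    omega

theorem hasC_of_minDeg [Fintype V] [Nonempty V] {m b : ℕ} (hb : 1 ≤ b)
    (hmb : 10 ^ 40 * b ^ 8 ≤ m) (hm : Even m) (hV : Fintype.card V ≤ 2 ^ b)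
    (hdeg : ∀ v, m ≤ deg G univ v + 1) : HasC G m := by
  by_contra hC
  obtain ⟨h, d, u, hi, g2, k, D, P⟩ := exists_par b m hb hmb
  obtain ⟨v⟩ := ‹Nonempty V›
  have h1 := P.growth hm hC hV hdeg rfl (by
    have h2 : b ^ 2 ≤ b ^ 8 := Nat.pow_le_pow_right hb (by norm_num)
    nlinarith) (b + 1) le_rfl ∅ v (by simp) (by simp)
  have h2 : (ball G (univ \ ∅) v ((b + 1) * (2 * (100000 * (b + 1)) + 1))).card ≤ 2 ^ b :=
    (card_le_univ _).trans hV
  have h3 : 0 < 2 ^ b := by positivity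
  rw [pow_succ] at h1
  omega

end RCS
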