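import Pool.Agent.P.MP_848074_co.PS

open Finset
open scoped Classical

namespace RCS

variable {V : Type*} {G : SimpleGraph V}

/-- two disjoint paths from `P` to `R` inside `Ω` -/
def DP (G : SimpleGraph V) (Ω P R : Finset V) (L1 L2 : Finset V) : Prop :=
  ∃ a1 b1 a2 b2, a1 ∈ P ∧ a2 ∈ P ∧ b1 ∈ R ∧ b2 ∈ R ∧ PS G a1 b1 L1 ∧ PS G a2 b2 L2 ∧
    L1 ⊆ Ω ∧ L2 ⊆ Ω ∧ Disjoint L1 L2

theorem DP.symm {Ω P R L1 L2 : Finset V} (h : DP G Ω P R L1 L2) : DP G Ω P R L2 L1 := by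
  obtain ⟨a1, b1, a2, b2, h1, h2, h3, h4, h5, h6, h7, h8, h9⟩ := h
  exact ⟨a2, b2, a1, b1, h2, h1, h4, h3, h6, h5, h8, h7, h9.symm⟩

theorem DP.trim {Ω P R L1 L2 : Finset V} (h : DP G Ω P R L1 L2) :
    ∃ a1 b1 a2 b2 T1 T2, a1 ∈ P ∧ a2 ∈ P ∧ b1 ∈ R ∧ b2 ∈ R ∧ PS G a1 b1 T1 ∧ PS G a2 b2 T2 ∧
      T1 ⊆ Ω ∧ T2 ⊆ Ω ∧ Disjoint T1 T2 ∧ (∀ z ∈ T1, z ∈ R → z = b1) ∧
      ∀ z ∈ T2, z ∈ R → z = b2 := by
  obtain ⟨a1, b1, a2, b2, h1, h2, h3, h4, h5, h6, h7, h8, h9⟩ := h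
  obtain ⟨c1, k1, T1, k2, k3, k4⟩ := h5.trim R h3
  obtain ⟨c2, l1, T2, l2, l3, l4⟩ := h6.trim R h4
  exact ⟨a1, c1, a2, c2, T1, T2, h1, h2, k1, l1, k3, l3, k2.trans h7, l2.trans h8,
    disjoint_of_subset_left k2 (disjoint_of_subset_right l2 h9), k4, l4⟩

theorem menger_step {Ω P R : Finset V} {e e' : V} (he' : e' ∈ R) (he'Ω : e' ∈ Ω)
    (hadj : G.Adj e e')
    (hav : ∃ p ∈ P, ∃ r ∈ R, ∃ T, T ⊆ Ω ∧ PS G p r T ∧ e' ∉ T)
    {a1 a2 b2 : V} {T1 T2 : Finset V} (h1 : a1 ∈ P) (h2 : a2 ∈ P) (h4 : b2 ∈ R)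
    (p1 : PS G a1 e T1) (p2 : PS G a2 b2 T2) (s1 : T1 ⊆ Ω) (s2 : T2 ⊆ Ω) (hd : Disjoint T1 T2)
    (i1 : ∀ z ∈ T1, z ∉ R) (i2 : ∀ z ∈ T2, z ∈ R → z = b2) : ∃ L1 L2, DP G Ω P R L1 L2 := by
  have hn1 : e' ∉ T1 := fun h => i1 _ h he'
  have pe := p1.snoc hadj hn1
  have se : insert e' T1 ⊆ Ω := insert_subset he'Ω s1
  by_cases hb : e' = b2
  swap
  · refine ⟨_, T2, a1, e', a2, b2, h1, h2, he', h4, pe, p2, se, s2, ?_⟩
    rw [disjoint_insert_left]
    exact ⟨fun h => hb (i2 _ h he'), hd⟩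
  subst hb
  obtain ⟨p, hp, r, hr, T3, s3, p3, n3⟩ := hav
  by_cases hm : Disjoint T3 (T1 ∪ T2)
  · exact ⟨T3, T2, p, r, a2, e', hp, h2, hr, he', p3, p2, s3, s2,
      disjoint_of_subset_right subset_union_right hm⟩
  obtain ⟨w0, w1, w2⟩ := not_disjoint_iff.1 hm
  obtain ⟨T4, s4, p4⟩ := p3.symm.sub w1
  obtain ⟨w, hw, T5, s5, p5, i5⟩ := p4.trim (T1 ∪ T2) w2
  have s5' : T5 ⊆ T3 := s5.trans s4
  rcases mem_union.1 hw with hw | hw
  · obtain ⟨T6, s6, p6⟩ := p1.sub hw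
    refine ⟨T6 ∪ T5, T2, a1, r, a2, e', h1, h2, hr, he',
      p6.join p5.symm (fun z h h' => i5 z h' (mem_union_left _ (s6 h))), p2,
      union_subset (s6.trans s1) (s5'.trans s3), s2, ?_⟩
    rw [disjoint_union_left]
    refine ⟨disjoint_of_subset_left s6 hd, disjoint_left.2 fun z h h' => ?_⟩
    have := i5 z h (mem_union_right _ h')
    exact disjoint_left.1 hd hw (this ▸ h')
  · obtain ⟨T6, T7, p6, p7, hu, hi⟩ := p2.split hw
    have s6 : T6 ⊆ T2 := hu ▸ subset_union_left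
    refine ⟨insert e' T1, T6 ∪ T5, a1, e', a2, r, h1, h2, he', hr, pe,
      p6.join p5.symm (fun z h h' => i5 z h' (mem_union_right _ (s6 h))), se,
      union_subset (s6.trans s2) (s5'.trans s3), ?_⟩
    rw [disjoint_insert_left, disjoint_union_right, mem_union, not_or]
    refine ⟨⟨fun h => ?_, fun h => n3 (s5' h)⟩, disjoint_of_subset_right s6 hd,
      disjoint_left.2 fun z h h' => ?_⟩
    · have := hi e' h p7.right_mem
      exact n3 (s5' (this ▸ p5.right_mem))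
    · have := i5 z h' (mem_union_left _ h)
      exact disjoint_left.1 hd (this ▸ h) hw

theorem menger_aux {Ω P R : Finset V}
    (hav : ∀ w, ∃ p ∈ P, ∃ r ∈ R, ∃ T, T ⊆ Ω ∧ PS G p r T ∧ w ∉ T)
    {x y : V} {T : Finset V} (h : PS G x y T) (hy : y ∈ R) (hT : T ⊆ Ω) :
    (∃ L1 L2, DP G Ω P (T ∪ R) L1 L2) → ∃ L1 L2, DP G Ω P R L1 L2 := by
  induction h with
  | single x =>
    rw [union_eq_right.2 (by simpa using hy)]
    exact id
  | @cons e x y T ha hw hp ih =>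
    rintro ⟨L1, L2, hD⟩
    apply ih hy ((subset_insert _ _).trans hT)
    by_cases heR : e ∈ T ∪ R
    · rw [insert_union, insert_eq_of_mem heR] at hD
      exact ⟨L1, L2, hD⟩
    obtain ⟨a1, b1, a2, b2, T1, T2, h1, h2, h3, h4, h5, h6, h7, h8, h9, i1, i2⟩ := hD.trim
    rw [insert_union] at h3 h4 i1 i2
    have hx : x ∈ T ∪ R := mem_union_left _ hp.left_mem
    have hxΩ : x ∈ Ω := hT (mem_insert_of_mem hp.left_mem)
    have hav' : ∃ p ∈ P, ∃ r ∈ T ∪ R, ∃ T', T' ⊆ Ω ∧ PS G p r T' ∧ x ∉ T' := by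
      obtain ⟨p, k1, r, k2, T', k3⟩ := hav x
      exact ⟨p, k1, r, mem_union_right _ k2, T', k3⟩
    rcases mem_insert.1 h3 with rfl | h3'
    · have h4' : b2 ∈ T ∪ R := by
        rcases mem_insert.1 h4 with rfl | h4'
        · exact absurd h6.right_mem (disjoint_left.1 h9 h5.right_mem)
        · exact h4'
      exact menger_step hx hxΩ ha hav' h1 h2 h4' h5 h6 h7 h8 h9
        (fun z h h' => heR (i1 z h (mem_insert_of_mem h') ▸ h'))
        (fun z h h' => i2 z h (mem_insert_of_mem h'))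
    rcases mem_insert.1 h4 with rfl | h4'
    · exact menger_step hx hxΩ ha hav' h2 h1 h3' h6 h5 h8 h7 h9.symm
        (fun z h h' => heR (i2 z h (mem_insert_of_mem h') ▸ h'))
        (fun z h h' => i1 z h (mem_insert_of_mem h'))
    · exact ⟨T1, T2, a1, b1, a2, b2, h1, h2, h3', h4', h5, h6, h7, h8, h9⟩

theorem menger2 [Nonempty V] {Ω P R : Finset V}
    (hav : ∀ w, ∃ p ∈ P, ∃ r ∈ R, ∃ T, T ⊆ Ω ∧ PS G p r T ∧ w ∉ T) :
    ∃ L1 L2, DP G Ω P R L1 L2 := by
  obtain ⟨w⟩ := ‹Nonempty V›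
  obtain ⟨p, hp, r, hr, T, hT, pT, -⟩ := hav w
  apply menger_aux hav pT hr hT
  obtain ⟨p', hp', r', hr', T', hT', pT', hn⟩ := hav p
  exact ⟨{p}, T', p, p, p', r', hp, hp', mem_union_left _ pT.left_mem, mem_union_right _ hr',
    PS.single p, pT', by simpa using hT pT.left_mem, hT', by simpa using hn⟩

theorem PS.pieces {x y : V} {T : Finset V} (h : PS G x y T) :
    ∃ f : ℕ → V, (∀ i j, i < T.card → j < T.card → f i = f j → i = j) ∧
      (∀ a ∈ T, ∃ i, i < T.card ∧ f i = a) ∧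
      ∃ A B : ℕ → Finset V, (∀ i < T.card, PS G x (f i) (A i) ∧ A i ⊆ T ∧ (A i).card = i + 1 ∧
        PS G (f i) y (B i) ∧ B i ⊆ T ∧ (B i).card + i = T.card) ∧
        ∀ i j, i < j → j < T.card → Disjoint (A i) (B j) := by
  obtain ⟨f, f1, f2, f3, f4, f5, f6⟩ := h.exists_fun
  refine ⟨f, f1, f6, fun i => (Icc 0 i).image f, fun i => (Icc i (T.card - 1)).image f, ?_, ?_⟩
  · intro i hi
    obtain ⟨s1, s2⟩ := seg (G := G) f T.card f1 f4 0 i (by omega)
    obtain ⟨r1, r2⟩ := seg (G := G) f T.card f1 f4 i (T.card - 1 - i) (by omega)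
    rw [zero_add] at s1 s2
    rw [show i + (T.card - 1 - i) = T.card - 1 by omega] at r1 r2
    rw [f2] at s1
    rw [f3] at r1
    refine ⟨s1, ?_, s2, r1, ?_, by simp only []; omega⟩
    · intro z hz
      obtain ⟨q, hq, rfl⟩ := mem_image.1 hz
      exact f5 q (by rw [mem_Icc] at hq; omega)
    · intro z hz
      obtain ⟨q, hq, rfl⟩ := mem_image.1 hz
      exact f5 q (by rw [mem_Icc] at hq; omega)
  · intro i j hij hj
    rw [disjoint_left]
    intro z hz hz'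
    obtain ⟨q, hq, rfl⟩ := mem_image.1 hz
    obtain ⟨q', hq', he⟩ := mem_image.1 hz'
    rw [mem_Icc] at hq hq'
    have := f1 _ _ (by omega) (by omega) he
    omega

theorem PS.shortcut {x y w : V} {T : Finset V} (h : PS G x y T) (hw : 4 ≤ deg G T w) :
    ∃ T', T' ⊆ insert w T ∧ PS G x y T' ∧ T'.card < T.card := by
  obtain ⟨f, f1, f6, A, B, hAB, -⟩ := h.pieces
  set F := (range T.card).filter (fun i => G.Adj w (f i)) with hF
  have h1 : deg G T w ≤ F.card := by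
    refine le_trans (card_le_card ?_) (card_image_le (f := f))
    intro a ha
    rw [mem_filter] at ha
    obtain ⟨i, hi, rfl⟩ := f6 a ha.1
    exact mem_image.2 ⟨i, mem_filter.2 ⟨mem_range.2 hi, ha.2⟩, rfl⟩
  have hne : F.Nonempty := Finset.card_pos.1 (by omega)
  have hc : F.card ≤ (Icc (F.min' hne) (F.max' hne)).card :=
    card_le_card (fun z hz => mem_Icc.2 ⟨min'_le F z hz, le_max' F z hz⟩)
  rw [Nat.card_Icc] at hc
  have hi := mem_filter.1 (min'_mem F hne)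
  have hj := mem_filter.1 (max'_mem F hne)
  rw [mem_range] at hi hj
  obtain ⟨a1, a2, a3, -, -, -⟩ := hAB _ hi.1
  obtain ⟨-, -, -, b1, b2, b3⟩ := hAB _ hj.1
  obtain ⟨T1, s1, p1, c1⟩ := a1.trans (PS.edge hi.2.symm)
  obtain ⟨T2, s2, p2, c2⟩ := p1.trans (PS.edge hj.2)
  obtain ⟨T3, s3, p3, c3⟩ := p2.trans b1
  have e1 : ({f (F.min' hne), w} : Finset V).card ≤ 2 := card_le_two
  have e2 : ({w, f (F.max' hne)} : Finset V).card ≤ 2 := card_le_two
  refine ⟨T3, s3.trans (union_subset (s2.trans (union_subset (s1.trans (union_subset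
    (a2.trans (subset_insert _ _)) ?_)) ?_)) (b2.trans (subset_insert _ _))), p3, by omega⟩
  · exact insert_subset (mem_insert_of_mem (a2 a1.right_mem)) (by simp)
  · exact insert_subset (mem_insert_self _ _)
      (singleton_subset_iff.2 (mem_insert_of_mem (b2 b1.left_mem)))

theorem sum_deg_comm (S T : Finset V) : ∑ v ∈ S, deg G T v = ∑ w ∈ T, deg G S w := by
  unfold deg
  simp only [card_filter]
  rw [sum_comm]
  simp only [G.adj_comm]

theorem DP.bound {Ω P R L1 L2 : Finset V} (h : DP G Ω P R L1 L2)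
    (hmin : ∀ M1 M2, DP G Ω P R M1 M2 → L1.card + L2.card ≤ M1.card + M2.card) :
    ∑ v ∈ L1, deg G Ω v ≤ 3 * Ω.card + 2 * (L1.card + L2.card) := by
  obtain ⟨a1, b1, a2, b2, h1, h2, h3, h4, h5, h6, h7, h8, h9⟩ := h
  have e1 : ∑ v ∈ L1, deg G Ω v ≤ ∑ v ∈ L1, (deg G (Ω \ L2) v + deg G L2 v) := by
    apply sum_le_sum
    intro v _
    have := deg_union_le (G := G) (Ω \ L2) L2 v
    rwa [sdiff_union_of_subset h8] at this
  have e2 : ∑ v ∈ L1, deg G (Ω \ L2) v ≤ 3 * Ω.card := by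
    rw [sum_deg_comm]
    have : ∑ w ∈ Ω \ L2, deg G L1 w ≤ (Ω \ L2).card • 3 := by
      apply sum_le_card_nsmul
      intro w hw
      by_contra hcon
      obtain ⟨T', t1, t2, t3⟩ := h5.shortcut (w := w) (by omega)
      rw [mem_sdiff] at hw
      have := hmin T' L2 ⟨a1, b1, a2, b2, h1, h2, h3, h4, t2, h6,
        t1.trans (insert_subset hw.1 h7), h8,
        disjoint_of_subset_left t1 (disjoint_insert_left.2 ⟨hw.2, h9⟩)⟩
      omega
    have h' : (Ω \ L2).card ≤ Ω.card := card_le_card sdiff_subset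
    rw [smul_eq_mul] at this
    omega
  have e3 : ∑ v ∈ L1, deg G L2 v ≤ 2 * (L1.card + L2.card) := by
    obtain ⟨f, f1, f6, A, B, hAB, hd⟩ := h5.pieces
    obtain ⟨g, g1, g6, C, D, hCD, hd'⟩ := h6.pieces
    set E := (range L1.card ×ˢ range L2.card).filter (fun z => G.Adj (f z.1) (g z.2)) with hE
    have c1 : ∑ v ∈ L1, deg G L2 v ≤ E.card := by
      have : ∑ v ∈ L1, deg G L2 v = ((L1 ×ˢ L2).filter (fun z => G.Adj z.1 z.2)).card := by
        unfold deg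
        simp only [card_filter]
        rw [sum_product]
      rw [this]
      refine le_trans (card_le_card ?_) (card_image_le (f := fun z => (f z.1, g z.2)))
      rintro ⟨u, v⟩ hz
      rw [mem_filter, mem_product] at hz
      obtain ⟨i, hi, rfl⟩ := f6 u hz.1.1
      obtain ⟨j, hj, rfl⟩ := g6 v hz.1.2
      exact mem_image.2 ⟨(i, j), mem_filter.2
        ⟨mem_product.2 ⟨mem_range.2 hi, mem_range.2 hj⟩, hz.2⟩, rfl⟩
    have cross : ∀ z ∈ E, ∀ z' ∈ E, z.1 < z'.1 → z'.2 < z.2 → z'.1 = z.1 + 1 := by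
      rintro ⟨i, j⟩ hz ⟨i', j'⟩ hz' hi hj
      simp only [hE, mem_filter, mem_product, mem_range] at hz hz' hi hj ⊢
      obtain ⟨p1, p2, p3, -, -, -⟩ := hAB i hz.1.1
      obtain ⟨-, -, -, q1, q2, q3⟩ := hAB i' hz'.1.1
      obtain ⟨r1, r2, r3, -, -, -⟩ := hCD j' hz'.1.2
      obtain ⟨-, -, -, s1, s2, s3⟩ := hCD j hz.1.2
      have d1 : Disjoint (A i) (D j) := disjoint_of_subset_left p2 (disjoint_of_subset_right s2 h9)
      have d2 : Disjoint (C j') (B i') :=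
        disjoint_of_subset_left r2 (disjoint_of_subset_right q2 h9.symm)
      have := hmin (A i ∪ D j) (C j' ∪ B i') ⟨a1, b2, a2, b1, h1, h2, h4, h3,
        p1.joinE hz.2 s1 d1, r1.joinE hz'.2.symm q1 d2,
        union_subset (p2.trans h7) (s2.trans h8), union_subset (r2.trans h8) (q2.trans h7), by
          rw [disjoint_union_left, disjoint_union_right, disjoint_union_right]
          exact ⟨⟨disjoint_of_subset_left p2 (disjoint_of_subset_right r2 h9), hd i i' hi hz'.1.1⟩,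
            (hd' j' j hj hz.1.2).symm,
            disjoint_of_subset_left s2 (disjoint_of_subset_right q2 h9.symm)⟩⟩
      rw [card_union_of_disjoint d1, card_union_of_disjoint d2] at this
      omega
    have c2 : E.card ≤ (range (L1.card + L2.card) ×ˢ range 2).card := by
      apply card_le_card_of_injOn (fun z => (z.1 + z.2, z.1 % 2))
      · intro z hz
        have hz' := mem_coe.1 hz
        simp only [hE, mem_filter, mem_product, mem_range] at hz'
        simp only [coe_product, coe_range, Set.mem_prod, Set.mem_Iio]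
        omega
      · intro z hz z' hz' he
        simp only [Prod.mk.injEq] at he
        have k1 := cross z hz z' hz'
        have k2 := cross z' hz' z hz
        apply Prod.ext <;> omega
    rw [card_product, card_range, card_range] at c2
    omega
  rw [sum_add_distrib] at e1
  omega

theorem DP.short {Ω P R X : Finset V} {δ : ℕ} (hδ : ∀ v ∈ Ω \ X, δ ≤ deg G Ω v)
    (h : ∃ L1 L2, DP G Ω P R L1 L2) : ∃ L1 L2, DP G Ω P R L1 L2 ∧
      (L1.card + L2.card) * δ ≤ 6 * Ω.card + 4 * (L1.card + L2.card) + 2 * X.card * δ := by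
  have hex : ∃ n, ∃ L1 L2, DP G Ω P R L1 L2 ∧ L1.card + L2.card = n := by
    obtain ⟨L1, L2, h⟩ := h
    exact ⟨_, L1, L2, h, rfl⟩
  obtain ⟨L1, L2, hD, hn⟩ := Nat.find_spec hex
  have hmin : ∀ M1 M2, DP G Ω P R M1 M2 → L1.card + L2.card ≤ M1.card + M2.card :=
    fun M1 M2 hM => hn ▸ Nat.find_min' hex ⟨M1, M2, hM, rfl⟩
  have b1 := hD.bound hmin
  have b2 := hD.symm.bound (fun M1 M2 hM => by have := hmin M1 M2 hM; omega)
  have key : ∀ L ⊆ Ω, L.card * δ ≤ ∑ v ∈ L, deg G Ω v + X.card * δ := by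
    intro L hL
    have c1 : L.card ≤ (L \ X).card + X.card := card_le_card_sdiff_add_card
    have c2 := card_nsmul_le_sum (L \ X) (fun v => deg G Ω v) δ
      (fun v hv => hδ v (sdiff_subset_sdiff hL (Subset.refl _) hv))
    have c3 : ∑ v ∈ L \ X, deg G Ω v ≤ ∑ v ∈ L, deg G Ω v := sum_le_sum_of_subset sdiff_subset
    rw [smul_eq_mul] at c2
    have c4 := Nat.mul_le_mul_right δ c1
    rw [add_mul] at c4
    omega
  obtain ⟨a1, b1', a2, b2', h1, h2, h3, h4, h5, h6, h7, h8, h9⟩ := hD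
  have k1 := key L1 h7
  have k2 := key L2 h8
  refine ⟨L1, L2, ⟨a1, b1', a2, b2', h1, h2, h3, h4, h5, h6, h7, h8, h9⟩, ?_⟩
  rw [add_mul, mul_assoc]
  omega

end RCS
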