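import Mathlib

open Finset
open scoped Classical

namespace RCS

variable {V : Type*}

/-- `PS G x y T`: `T` is the vertex set of a path of `G` from `x` to `y`. -/
inductive PS (G : SimpleGraph V) : V → V → Finset V → Prop
  | single (x : V) : PS G x x {x}
  | cons {w x y : V} {T : Finset V} : G.Adj w x → w ∉ T → PS G x y T → PS G w y (insert w T)

/-- number of neighbours of `v` in `S` -/
noncomputable def deg (G : SimpleGraph V) (S : Finset V) (v : V) : ℕ :=
  (S.filter (fun w => G.Adj v w)).card

/-- a path on `m` vertices whose ends are adjacent -/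
def HasC (G : SimpleGraph V) (m : ℕ) : Prop :=
  ∃ x y T, PS G x y T ∧ G.Adj y x ∧ T.card = m

variable {G : SimpleGraph V}

theorem PS.left_mem {x y : V} {T : Finset V} (h : PS G x y T) : x ∈ T := by
  cases h <;> simp

theorem PS.right_mem {x y : V} {T : Finset V} (h : PS G x y T) : y ∈ T := by
  induction h with
  | single x => simp
  | cons _ _ _ ih => exact mem_insert_of_mem ih

theorem PS.card_pos {x y : V} {T : Finset V} (h : PS G x y T) : 1 ≤ T.card :=
  Finset.card_pos.2 ⟨x, h.left_mem⟩

theorem PS.two_le {x y : V} {T : Finset V} (h : PS G x y T) (hxy : x ≠ y) : 2 ≤ T.card :=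
  Finset.one_lt_card.2 ⟨x, h.left_mem, y, h.right_mem, hxy⟩

theorem PS.mono {G' : SimpleGraph V} (hG : G ≤ G') {x y : V} {T : Finset V} (h : PS G x y T) :
    PS G' x y T := by
  induction h with
  | single x => exact PS.single x
  | cons ha hw _ ih => exact PS.cons (hG ha) hw ih

theorem PS.eq_single' {x y : V} {T : Finset V} (h : PS G x y T) (hxy : x = y) : T = {x} := by
  cases h with
  | single => rfl
  | cons ha hw hp => exact absurd (hxy ▸ hp.right_mem) hw

theorem PS.eq_single {x : V} {T : Finset V} (h : PS G x x T) : T = {x} := h.eq_single' rfl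

theorem PS.edge {x y : V} (h : G.Adj x y) : PS G x y {x, y} :=
  PS.cons h (by simpa using h.ne) (PS.single y)

theorem PS.join {x z y : V} {T1 T2 : Finset V} (h1 : PS G x z T1) (h2 : PS G z y T2)
    (hd : ∀ a ∈ T1, a ∈ T2 → a = z) : PS G x y (T1 ∪ T2) := by
  induction h1 with
  | single x =>
    have : ({x} : Finset V) ∪ T2 = T2 := by
      rw [union_eq_right]; simpa using h2.left_mem
    rw [this]; exact h2
  | @cons w x z T ha hw hp ih =>
    rw [insert_union]
    refine PS.cons ha ?_ (ih h2 (fun a h1 h2 => hd a (mem_insert_of_mem h1) h2))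
    intro hm
    rcases mem_union.1 hm with h | h
    · exact hw h
    · have := hd w (mem_insert_self _ _) h
      exact hw (this ▸ hp.right_mem)

theorem card_join {z : V} {T1 T2 : Finset V} (h1 : z ∈ T1) (h2 : z ∈ T2)
    (hd : ∀ a ∈ T1, a ∈ T2 → a = z) : (T1 ∪ T2).card + 1 = T1.card + T2.card := by
  have : T1 ∩ T2 = {z} := by
    ext a; simp only [mem_inter, mem_singleton]
    exact ⟨fun h => hd a h.1 h.2, fun h => h ▸ ⟨h1, h2⟩⟩
  have h := card_union_add_card_inter T1 T2
  rw [this, card_singleton] at h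
  exact h

theorem PS.joinE {x z w y : V} {T1 T2 : Finset V} (h1 : PS G x z T1) (ha : G.Adj z w)
    (h2 : PS G w y T2) (hd : Disjoint T1 T2) : PS G x y (T1 ∪ T2) := by
  have hz : z ∉ T2 := disjoint_left.1 hd h1.right_mem
  have h3 := h1.join (PS.cons ha hz h2) (fun a h1 h2 => by
    rcases mem_insert.1 h2 with h | h
    · exact h
    · exact absurd h (disjoint_left.1 hd h1))
  have : T1 ∪ insert z T2 = T1 ∪ T2 := by
    rw [union_insert, insert_eq_of_mem (mem_union_left _ h1.right_mem)]
  rwa [this] at h3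

theorem PS.snoc {x z w : V} {T : Finset V} (h1 : PS G x z T) (ha : G.Adj z w) (hw : w ∉ T) :
    PS G x w (insert w T) := by
  have := h1.joinE ha (PS.single w) (by simpa using hw)
  rwa [union_comm, ← insert_eq] at this

theorem PS.symm {x y : V} {T : Finset V} (h : PS G x y T) : PS G y x T := by
  induction h with
  | single x => exact PS.single x
  | cons ha hw _ ih => exact ih.snoc ha.symm hw

theorem PS.split {x y z : V} {T : Finset V} (h : PS G x y T) (hz : z ∈ T) :
    ∃ T1 T2, PS G x z T1 ∧ PS G z y T2 ∧ T1 ∪ T2 = T ∧ ∀ a ∈ T1, a ∈ T2 → a = z := by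
  induction h with
  | single x =>
    obtain rfl := mem_singleton.1 hz
    exact ⟨{z}, {z}, PS.single z, PS.single z, by simp, by simp⟩
  | @cons w x y T ha hw hp ih =>
    rcases mem_insert.1 hz with rfl | hz'
    · exact ⟨{z}, insert z T, PS.single z, PS.cons ha hw hp, by simp, by simp⟩
    · obtain ⟨T1, T2, h1, h2, hu, hd⟩ := ih hz'
      refine ⟨insert w T1, T2, PS.cons ha (fun h => hw (hu ▸ mem_union_left _ h)) h1, h2,
        by rw [insert_union, hu], ?_⟩
      intro a h1 h2
      rcases mem_insert.1 h1 with rfl | h1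
      · exact absurd (hu ▸ mem_union_right _ h2) hw
      · exact hd a h1 h2

theorem PS.sub {x y z : V} {T : Finset V} (h : PS G x y T) (hz : z ∈ T) :
    ∃ T1, T1 ⊆ T ∧ PS G x z T1 := by
  obtain ⟨T1, T2, h1, -, hu, -⟩ := h.split hz
  exact ⟨T1, hu ▸ subset_union_left, h1⟩

theorem PS.split_card {x y : V} {T : Finset V} (h : PS G x y T) :
    ∀ k, 1 ≤ k → k ≤ T.card → ∃ z T1 T2, PS G x z T1 ∧ PS G z y T2 ∧ T1 ∪ T2 = T ∧
      (∀ a ∈ T1, a ∈ T2 → a = z) ∧ T1.card = k := by
  induction h with
  | single x =>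
    intro k h1 h2
    rw [card_singleton] at h2
    exact ⟨x, {x}, {x}, PS.single x, PS.single x, by simp, by simp, by simp; omega⟩
  | @cons w x y T ha hw hp ih =>
    intro k h1 h2
    rcases Nat.eq_or_lt_of_le h1 with rfl | hk
    · exact ⟨w, {w}, insert w T, PS.single w, PS.cons ha hw hp, by simp, by simp, by simp⟩
    · rw [card_insert_of_notMem hw] at h2
      obtain ⟨z, T1, T2, h1, h2, hu, hd, hc⟩ := ih (k - 1) (by omega) (by omega)
      have hw1 : w ∉ T1 := fun h => hw (hu ▸ mem_union_left _ h)
      refine ⟨z, insert w T1, T2, PS.cons ha hw1 h1, h2, by rw [insert_union, hu], ?_, ?_⟩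
      · intro a h1 h2
        rcases mem_insert.1 h1 with rfl | h1
        · exact absurd (hu ▸ mem_union_right _ h2) hw
        · exact hd a h1 h2
      · rw [card_insert_of_notMem hw1]; omega

theorem PS.trim {x y : V} {T : Finset V} (h : PS G x y T) (S : Finset V) (hy : y ∈ S) :
    ∃ z ∈ S, ∃ T1, T1 ⊆ T ∧ PS G x z T1 ∧ ∀ a ∈ T1, a ∈ S → a = z := by
  induction h with
  | single x => exact ⟨x, hy, {x}, Subset.refl _, PS.single x, by simp⟩
  | @cons w x y T ha hw hp ih =>
    by_cases hS : w ∈ S
    · exact ⟨w, hS, {w}, by simp, PS.single w, by simp⟩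
    · obtain ⟨z, hz, T1, hs, h1, hd⟩ := ih hy
      refine ⟨z, hz, insert w T1, insert_subset_insert _ hs,
        PS.cons ha (fun h => hw (hs h)) h1, ?_⟩
      intro a h1 h2
      rcases mem_insert.1 h1 with rfl | h1
      · exact absurd h2 hS
      · exact hd a h1 h2

/-- any walk-like concatenation can be shortened to a path -/
theorem PS.trans {x z y : V} {T1 T2 : Finset V} (h1 : PS G x z T1) (h2 : PS G z y T2) :
    ∃ T, T ⊆ T1 ∪ T2 ∧ PS G x y T ∧ T.card + 1 ≤ T1.card + T2.card := by
  obtain ⟨w, hw, T1', hs, h1', hd⟩ := h1.trim T2 h2.left_mem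
  obtain ⟨T2', hs2, h2'⟩ := h2.symm.sub hw
  have hd' : ∀ a ∈ T1', a ∈ T2' → a = w := fun a h h' => hd a h (hs2 h')
  refine ⟨T1' ∪ T2', union_subset_union hs hs2, h1'.join h2'.symm hd', ?_⟩
  rw [card_join h1'.right_mem h2'.right_mem hd']
  exact Nat.add_le_add (card_le_card hs) (card_le_card hs2)

theorem PS.parity (c : V → ℕ) (hc : ∀ a b, G.Adj a b → (c a + c b) % 2 = 1) {x y : V}
    {T : Finset V} (h : PS G x y T) : (T.card + c x + c y) % 2 = 1 := by
  induction h with
  | single x => simp; omega
  | cons ha hw _ ih =>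
    rw [card_insert_of_notMem hw]
    have := hc _ _ ha
    omega

theorem PS.close {x y : V} {T1 T2 : Finset V} (h1 : PS G x y T1) (h2 : PS G y x T2)
    (hxy : x ≠ y) (hd : ∀ a ∈ T1, a ∈ T2 → a = x ∨ a = y) :
    ∃ x' y', PS G x' y' (T1 ∪ T2) ∧ G.Adj y' x' ∧ (T1 ∪ T2).card + 2 = T1.card + T2.card := by
  cases h2 with
  | single => exact absurd rfl hxy
  | @cons _ y' _ T ha hw hp =>
    have hd' : ∀ a ∈ T, a ∈ T1 → a = x := by
      intro a h h'
      rcases hd a h' (mem_insert_of_mem h) with h'' | h''
      · exact h''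
      · exact absurd (h'' ▸ h) hw
    have h3 := hp.join h1 hd'
    have he : T1 ∪ insert y T = T ∪ T1 := by
      rw [union_insert, insert_eq_of_mem (mem_union_left _ h1.right_mem), union_comm]
    refine ⟨y', y, he ▸ h3, ha, ?_⟩
    rw [he, card_insert_of_notMem hw]
    have := card_join hp.right_mem h1.left_mem hd'
    omega

theorem deg_insert {S : Finset V} {a w : V} (ha : a ∉ S) :
    deg G (insert a S) w = deg G S w + if G.Adj w a then 1 else 0 := by
  unfold deg
  rw [filter_insert]
  split_ifs with h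
  · rw [card_insert_of_notMem (by simp [ha])]
  · rfl

theorem deg_mono {S S' : Finset V} (h : S ⊆ S') (v : V) : deg G S v ≤ deg G S' v :=
  card_le_card (filter_subset_filter _ h)

theorem deg_le (S : Finset V) (v : V) : deg G S v ≤ S.card := card_filter_le _ _

theorem deg_union_le (S S' : Finset V) (v : V) : deg G (S ∪ S') v ≤ deg G S v + deg G S' v := by
  unfold deg
  rw [filter_union]
  exact card_union_le _ _

theorem deg_le_sdiff (S U : Finset V) (v : V) : deg G S v ≤ deg G (S \ U) v + U.card := by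
  calc deg G S v ≤ deg G ((S \ U) ∪ U) v := deg_mono (by intro a; simp; tauto) v
    _ ≤ deg G (S \ U) v + deg G U v := deg_union_le _ _ _
    _ ≤ _ := Nat.add_le_add_left (deg_le _ _) _

theorem deg_lt_card {S : Finset V} {v : V} (hv : v ∈ S) : deg G S v + 1 ≤ S.card := by
  have : S.filter (fun w => G.Adj v w) ⊂ S :=
    filter_ssubset.2 ⟨v, hv, G.irrefl⟩
  exact card_lt_card this

theorem exists_nbr {S U : Finset V} {v : V} (h : U.card < deg G S v) :
    ∃ w ∈ S, w ∉ U ∧ G.Adj v w := by
  obtain ⟨w, hw, hU⟩ := exists_mem_notMem_of_card_lt_card h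
  exact ⟨w, (mem_filter.1 hw).1, hU, (mem_filter.1 hw).2⟩

theorem PS.ins' {x y : V} {T : Finset V} (h : PS G x y T) {w : V} (hw : w ∉ T) :
    PS G x y (insert w T) ∨ 2 * deg G T w ≤ T.card + if G.Adj w x then 1 else 0 := by
  induction h with
  | single x =>
    right
    have : deg G {x} w = deg G ∅ w + if G.Adj w x then 1 else 0 :=
      deg_insert (G := G) (S := ∅) (a := x) (w := w) (notMem_empty x)
    rw [this]
    simp only [deg, filter_empty, card_empty, card_singleton]
    split_ifs <;> omega
  | @cons a x y T ha haT hp ih =>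
    have hwT : w ∉ T := fun h => hw (mem_insert_of_mem h)
    have haw : a ≠ w := fun h => hw (h ▸ mem_insert_self _ _)
    have ha' : a ∉ insert w T := by simp [haw, haT]
    by_cases hb : G.Adj w a ∧ G.Adj w x
    · left
      rw [insert_comm]
      exact PS.cons hb.1.symm ha' (PS.cons hb.2 hwT hp)
    · rcases ih hwT with h | h
      · left
        rw [insert_comm]
        exact PS.cons ha ha' h
      · right
        rw [deg_insert haT, card_insert_of_notMem haT]
        split_ifs at h ⊢ with h1 h2
        · exact absurd ⟨h1, h2⟩ hb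
        all_goals omega

theorem PS.ins {x y : V} {T : Finset V} (h : PS G x y T) {w : V} (hw : w ∉ T)
    (hd : T.card + 2 ≤ 2 * deg G T w) : PS G x y (insert w T) := by
  rcases h.ins' hw with h | h
  · exact h
  · split_ifs at h <;> omega

theorem PS.exists_fun {x y : V} {T : Finset V} (h : PS G x y T) :
    ∃ f : ℕ → V, (∀ i j, i < T.card → j < T.card → f i = f j → i = j) ∧ f 0 = x ∧
      f (T.card - 1) = y ∧ (∀ i, i + 1 < T.card → G.Adj (f i) (f (i + 1))) ∧
      (∀ i, i < T.card → f i ∈ T) ∧ ∀ a ∈ T, ∃ i, i < T.card ∧ f i = a := by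
  induction h with
  | single x =>
    refine ⟨fun _ => x, ?_, rfl, rfl, ?_, ?_, ?_⟩
    · intro i j hi hj _
      rw [card_singleton] at hi hj; omega
    · intro i hi
      rw [card_singleton] at hi; omega
    · simp
    · intro a ha
      exact ⟨0, by simp, (mem_singleton.1 ha).symm⟩
  | @cons w x y T ha hw hp ih =>
    obtain ⟨f, h1, h2, h3, h4, h5, h6⟩ := ih
    have hpos := hp.card_pos
    rw [card_insert_of_notMem hw]
    refine ⟨fun i => if i = 0 then w else f (i - 1), ?_, by simp, ?_, ?_, ?_, ?_⟩
    · intro i j hi hj he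
      by_cases hi0 : i = 0 <;> by_cases hj0 : j = 0 <;> simp only [hi0, hj0, if_true, if_false] at he
      · omega
      · exact absurd (he ▸ h5 (j - 1) (by omega)) hw
      · exact absurd (he.symm ▸ h5 (i - 1) (by omega)) hw
      · have := h1 _ _ (by omega) (by omega) he
        omega
    · have : T.card + 1 - 1 ≠ 0 := by omega
      simp only [this, if_false]
      rw [← h3]; congr 1
    · intro i hi
      by_cases hi0 : i = 0
      · subst hi0; simpa [h2] using ha
      · have := h4 (i - 1) (by omega)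
        simp only [hi0, if_false, Nat.add_one_ne_zero, Nat.add_sub_cancel]
        rwa [show i - 1 + 1 = i by omega] at this
    · intro i hi
      by_cases hi0 : i = 0
      · simp [hi0]
      · simp only [hi0, if_false]
        exact mem_insert_of_mem (h5 _ (by omega))
    · intro a ha
      rcases mem_insert.1 ha with rfl | ha
      · exact ⟨0, by omega, by simp⟩
      · obtain ⟨i, hi, rfl⟩ := h6 a ha
        exact ⟨i + 1, by omega, by simp⟩

theorem seg (f : ℕ → V) (L : ℕ) (h1 : ∀ i j, i < L → j < L → f i = f j → i = j)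
    (h4 : ∀ i, i + 1 < L → G.Adj (f i) (f (i + 1))) (i : ℕ) :
    ∀ k, i + k < L → PS G (f i) (f (i + k)) ((Icc i (i + k)).image f) ∧
      ((Icc i (i + k)).image f).card = k + 1 := by
  intro k
  induction k with
  | zero => intro _; simpa using PS.single (f i)
  | succ k ih =>
    intro hk
    obtain ⟨hp, hc⟩ := ih (by omega)
    have hn : f (i + (k + 1)) ∉ (Icc i (i + k)).image f := by
      intro h
      obtain ⟨j, hj, he⟩ := mem_image.1 h
      rw [mem_Icc] at hj
      have := h1 _ _ (by omega) hk he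
      omega
    have he : (Icc i (i + (k + 1))).image f = insert (f (i + (k + 1))) ((Icc i (i + k)).image f) := by
      rw [← image_insert]; congr 1
      ext j; simp only [mem_Icc, mem_insert]; omega
    rw [he]
    exact ⟨hp.snoc (h4 (i + k) (by omega)) hn, by rw [card_insert_of_notMem hn, hc]⟩

theorem HasC.isContained {m : ℕ} (hm : 3 ≤ m) (h : HasC G m) :
    SimpleGraph.IsContained (SimpleGraph.cycleGraph m) G := by
  obtain ⟨x, y, T, hp, ha, hc⟩ := h
  obtain ⟨f, h1, h2, h3, h4, -, -⟩ := hp.exists_fun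
  rw [hc] at h1 h3 h4
  have key : ∀ u v : Fin m, (v - u).val = 1 → G.Adj (f u) (f v) := by
    intro u v huv
    rw [Fin.sub_def] at huv
    simp only at huv
    have hu := u.isLt
    have hv := v.isLt
    by_cases hl : u.val + 1 < m
    · have : v.val = u.val + 1 := by
        by_cases h : m - u.val + v.val < m
        · rw [Nat.mod_eq_of_lt h] at huv; omega
        · rw [Nat.mod_eq_sub_mod (by omega), Nat.mod_eq_of_lt (by omega)] at huv; omega
      rw [this]; exact h4 _ hl
    · have hv0 : v.val = 0 := by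
        by_cases h : m - u.val + v.val < m
        · rw [Nat.mod_eq_of_lt h] at huv; omega
        · rw [Nat.mod_eq_sub_mod (by omega), Nat.mod_eq_of_lt (by omega)] at huv; omega
      have hu0 : u.val = m - 1 := by omega
      rw [hv0, hu0, h2, h3]; exact ha
  refine ⟨⟨⟨fun i => f i, ?_⟩, ?_⟩⟩
  · intro u v huv
    rcases SimpleGraph.cycleGraph_adj'.1 huv with h | h
    · exact (key _ _ h).symm
    · exact key _ _ h
  · intro u v huv
    exact Fin.ext (h1 _ _ u.isLt v.isLt huv)

/-- greedy path -/
theorem greedy {B : Finset V} {d : ℕ} (hd : ∀ v ∈ B, d ≤ deg G B v) (U : Finset V) {x : V}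
    (hx : x ∈ B) (hxU : x ∉ U) :
    ∀ g, 1 ≤ g → U.card + g ≤ d + 1 → ∃ z T, PS G x z T ∧ T ⊆ B \ U ∧ T.card = g := by
  intro g hg
  induction g, hg using Nat.le_induction with
  | base => intro _; exact ⟨x, {x}, PS.single x, by simp [hx, hxU], by simp⟩
  | succ g hg ih =>
    intro h
    obtain ⟨z, T, hp, hs, hc⟩ := ih (by omega)
    have hz := mem_sdiff.1 (hs hp.right_mem)
    have h1 : (U ∪ T.erase z).card < deg G B z := by
      have := card_union_le U (T.erase z)
      rw [card_erase_of_mem hp.right_mem] at this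
      have := hd z hz.1
      omega
    obtain ⟨w, hw, hwU, ha⟩ := exists_nbr h1
    have hwT : w ∉ T := by
      intro h
      exact hwU (mem_union_right _ (mem_erase.2 ⟨ha.ne.symm, h⟩))
    refine ⟨w, insert w T, hp.snoc ha hwT, ?_, by rw [card_insert_of_notMem hwT, hc]⟩
    exact insert_subset (mem_sdiff.2 ⟨hw, fun h => hwU (mem_union_left _ h)⟩) hs

end RCS
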