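import Pool.Agent.P.MP_848074_co.Main
import Pool.Agent.P.MP_848074_co.Menger

open Finset
open scoped Classical

namespace RCS

variable {V : Type*} {G : SimpleGraph V}

theorem Par.core_min {m b h d u hi g2 k D : ℕ} (P : Par m b h d u hi g2 k D) (hm : Even m)
    (hC : ¬ HasC G m) {Y : Finset V} (hne : Y.Nonempty) (hY : Y.card ≤ 2 ^ b) {δ μ : ℕ}
    (h1 : 9 * m ≤ 10 * δ) (h2 : δ ≤ m) (hμ : 203 * m ≤ 200 * μ + 200 * δ)
    (hdeg : ∀ y ∈ Y, δ ≤ deg G Y y) : ∃ Q ⊆ Y, Core G m μ Q := by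
  refine P.core hm hC hne hY h1 h2 hμ ?_
  have := card_nsmul_le_sum Y (fun y => min (deg G Y y) δ) δ
    (fun y hy => le_min (hdeg y hy) le_rfl)
  rw [smul_eq_mul] at this
  have e : Y.card * δ ≤ ft G δ Y := this
  nlinarith

/-- vertices reached from `P` inside `Ω` -/
noncomputable def reach (G : SimpleGraph V) (Ω P : Finset V) : Finset V :=
  Ω.filter (fun s => ∃ p ∈ P, ∃ T, T ⊆ Ω ∧ PS G p s T)

theorem reach_step {Ω P : Finset V} {s t : V} (hs : s ∈ reach G Ω P) (ht : t ∈ Ω)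
    (ha : G.Adj s t) : t ∈ reach G Ω P := by
  obtain ⟨h1, p, hp, T, hT, pT⟩ := mem_filter.1 hs
  obtain ⟨T', s1, p1, -⟩ := pT.trans (PS.edge ha)
  exact mem_filter.2 ⟨ht, p, hp, T',
    s1.trans (union_subset hT (insert_subset h1 (by simpa using ht))), p1⟩

theorem mem_reach_self {Ω P : Finset V} {p : V} (hp : p ∈ P) (hΩ : p ∈ Ω) : p ∈ reach G Ω P :=
  mem_filter.2 ⟨hΩ, p, hp, {p}, by simpa using hΩ, PS.single p⟩

theorem mem_bd {A S : Finset V} {t : V} :
    t ∈ bd G A S ↔ t ∈ A ∧ t ∉ S ∧ ∃ s ∈ S, G.Adj s t := by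
  unfold bd
  rw [mem_filter, mem_sdiff, and_assoc]

theorem bd_reach {A Ω P : Finset V} {w : V}
    (h : ∀ s ∈ reach G Ω P, ∀ t ∈ A, G.Adj s t → t ∈ Ω ∨ t = w) :
    (bd G A (reach G Ω P)).card ≤ 1 := by
  have : bd G A (reach G Ω P) ⊆ {w} := by
    intro t ht
    obtain ⟨h1, h2, s, hs, ha⟩ := mem_bd.1 ht
    rcases h s hs t h1 ha with h3 | h3
    · exact absurd (reach_step hs h3 ha) h2
    · exact mem_singleton.2 h3
  simpa using card_le_card this

theorem deg_bd {A S : Finset V} {s : V} (hs : s ∈ S) : deg G A s ≤ deg G (S ∪ bd G A S) s := by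
  apply card_le_card
  intro w hw
  rw [mem_filter] at hw ⊢
  refine ⟨?_, hw.2⟩
  by_cases hwS : w ∈ S
  · exact mem_union_left _ hwS
  · exact mem_union_right _ (mem_bd.2 ⟨hw.1, hwS, s, hs, hw.2⟩)

theorem Par.endblock {m b h d u hi g2 k D : ℕ} (P : Par m b h d u hi g2 k D) (hm : Even m)
    (hC : ¬ HasC G m) (hm0 : 10000 ≤ m) {δ : ℕ} (hδ : 999 * m ≤ 1000 * δ) (hδm : δ ≤ m)
    {A X S : Finset V} (hS : S ⊆ A) (hA : A.card ≤ 2 ^ b)
    (hdeg : ∀ v ∈ A \ X, δ ≤ deg G A v) (hX : 2997 * X.card ≤ 10 * m)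
    (hN : 300 * A.card ≤ m ^ 2) (hY : (S \ X).Nonempty) (hbd : (bd G A S).card ≤ 1)
    (hmin : ∀ S' ⊂ S, (S' \ X).Nonempty → 1 < (bd G A S').card) :
    (S \ X).card + (bd G A S).card < m := by
  have : Nonempty V := ⟨hY.choose⟩
  set Z := bd G A S with hZ
  set Y := S \ X with hYd
  have hZA : Z ⊆ A := fun t ht => (mem_bd.1 ht).1
  have hYA : Y ⊆ A := sdiff_subset.trans hS
  have dH : ∀ y ∈ Y, δ ≤ deg G (S ∪ Z) y := fun y hy =>
    (hdeg y (sdiff_subset_sdiff hS (Subset.refl _) hy)).trans (deg_bd (mem_sdiff.1 hy).1)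
  have dY : ∀ y ∈ Y, δ - X.card - 1 ≤ deg G Y y := by
    intro y hy
    have a1 := dH y hy
    have a2 := deg_union_le (G := G) S Z y
    have a3 := deg_le (G := G) Z y
    have a4 := deg_le_sdiff (G := G) S X y
    rw [← hYd] at a4
    omega
  have hlt : Y.card < m := by
    obtain ⟨Q, hQ, hc⟩ := P.core_min hm hC hY ((card_le_card hYA).trans hA)
      (δ := δ - X.card - 1) (μ := m / 50) (by omega) (by omega) (by omega) dY
    obtain ⟨x, y, T, pT, hx, hy, cT, cK, hE⟩ := hc.ears (ρ := 3) hC (by omega)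
    rcases (Y \ (Q ∪ T)).eq_empty_or_nonempty with he | hne
    · exact lt_of_le_of_lt (card_le_card (sdiff_eq_empty_iff_subset.1 he)) cK
    exfalso
    obtain ⟨Q2, hQ2, hc2⟩ := P.core_min hm hC hne
      ((card_le_card (sdiff_subset.trans hYA)).trans hA)
      (δ := δ - X.card - 2 - 4 * (m / 50)) (μ := m / 8) (by omega) (by omega) (by omega) (by
        intro y hy
        have a1 := dY y (mem_sdiff.1 hy).1
        by_cases hq : ∃ q ∈ Q \ T, G.Adj q y
        · obtain ⟨q, hq, ha⟩ := hq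
          have := hE.deg_ge (Ω := Y) (r := 0) hq ha (self_mem_ball hy 0) le_rfl
          omega
        · push Not at hq
          have a2 : deg G Y y ≤ deg G (Y \ (Q ∪ T)) y + T.card := by
            refine le_trans (card_le_card ?_) (card_union_le _ T)
            intro w hw
            rw [mem_filter] at hw
            by_cases hwT : w ∈ T
            · exact mem_union_right _ hwT
            · have : w ∉ Q := fun hwQ => hq w (mem_sdiff.2 ⟨hwQ, hwT⟩) hw.2.symm
              exact mem_union_left _ (mem_filter.2 ⟨mem_sdiff.2 ⟨hw.1, by simp [*]⟩, hw.2⟩)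
          omega)
    have hQ2Y : Q2 ⊆ Y := hQ2.trans sdiff_subset
    have hdis : Disjoint Q Q2 := disjoint_right.2 fun w hw hw' =>
      (mem_sdiff.1 (hQ2 hw)).2 (mem_union_left _ hw')
    have c1 := hc.card_ge
    have c2 := hc2.card_ge
    have hav : ∀ w, ∃ p ∈ Q, ∃ r ∈ Q2, ∃ T, T ⊆ S ∪ Z ∧ PS G p r T ∧ w ∉ T := by
      intro w
      by_contra hcon
      push Not at hcon
      have side : ∀ R R' : Finset V, R ⊆ Y → R' ⊆ Y → 2 ≤ R.card → 2 ≤ R'.card →
          Disjoint (reach G ((S ∪ Z).erase w) R) (reach G ((S ∪ Z).erase w) R') →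
          ¬ Disjoint (reach G ((S ∪ Z).erase w) R) Z := by
        intro R R' hR hR' cR cR' hd hdZ
        obtain ⟨r, hr, hrw⟩ := exists_mem_notMem_of_card_lt_card (s := {w}) (t := R)
          (by rw [card_singleton]; omega)
        obtain ⟨r', hr', hrw'⟩ := exists_mem_notMem_of_card_lt_card (s := {w}) (t := R')
          (by rw [card_singleton]; omega)
        rw [mem_singleton] at hrw hrw'
        have hsub : reach G ((S ∪ Z).erase w) R ⊆ S := by
          intro s hs
          rcases mem_union.1 (mem_erase.1 (mem_filter.1 hs).1).2 with h1 | h1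
          · exact h1
          · exact absurd h1 (disjoint_left.1 hdZ hs)
        have m1 : r ∈ reach G ((S ∪ Z).erase w) R :=
          mem_reach_self hr (mem_erase.2 ⟨hrw, mem_union_left _ (mem_sdiff.1 (hR hr)).1⟩)
        have m2 : r' ∈ reach G ((S ∪ Z).erase w) R' :=
          mem_reach_self hr' (mem_erase.2 ⟨hrw', mem_union_left _ (mem_sdiff.1 (hR' hr')).1⟩)
        have := hmin _ (ssubset_iff_of_subset hsub |>.2
          ⟨r', (mem_sdiff.1 (hR' hr')).1, disjoint_right.1 hd m2⟩)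
          ⟨r, mem_sdiff.2 ⟨m1, (mem_sdiff.1 (hR hr)).2⟩⟩
        have h2 := bd_reach (G := G) (A := A) (Ω := (S ∪ Z).erase w) (P := R) (w := w) (by
          intro s hs t ht ha
          by_cases htw : t = w
          · exact Or.inr htw
          · refine Or.inl (mem_erase.2 ⟨htw, ?_⟩)
            by_cases htS : t ∈ S
            · exact mem_union_left _ htS
            · exact mem_union_right _ (mem_bd.2 ⟨ht, htS, s, hsub hs, ha⟩))
        omega
      have hd : Disjoint (reach G ((S ∪ Z).erase w) Q) (reach G ((S ∪ Z).erase w) Q2) := by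
        rw [disjoint_left]
        intro s h1 h2
        obtain ⟨-, p, hp, T1, s1, p1⟩ := mem_filter.1 h1
        obtain ⟨-, r, hr, T2, s2, p2⟩ := mem_filter.1 h2
        obtain ⟨T3, s3, p3, -⟩ := p1.trans p2.symm
        have s4 := s3.trans (union_subset s1 s2)
        exact (mem_erase.1 (s4 (hcon p hp r hr T3 (s4.trans (erase_subset _ _)) p3))).1 rfl
      obtain ⟨z1, k1, k2⟩ := not_disjoint_iff.1 (side Q Q2 hQ hQ2Y (by omega) (by omega) hd)
      obtain ⟨z2, l1, l2⟩ := not_disjoint_iff.1 (side Q2 Q hQ2Y hQ (by omega) (by omega) hd.symm)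
      have := card_le_one.1 hbd z1 k2 z2 l2
      exact disjoint_left.1 hd k1 (this ▸ l1)
    obtain ⟨L1, L2, ⟨a1, b1, a2, b2, h1, h2, h3, h4, h5, h6, -, -, h9⟩, hl⟩ :=
      DP.short (X := X ∪ Z) (δ := δ) (by
        intro v hv
        apply dH
        simp only [hYd, mem_sdiff, mem_union] at hv ⊢
        tauto) (menger2 hav)
    refine hC (two_cores (hc.mono (by omega)) hc2 hdis h5 h6 h1 h2 h3 h4 h9 ?_)
    by_contra hcon
    have e1 : (S ∪ Z).card ≤ A.card := card_le_card (union_subset hS hZA)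
    have e2 : 100 * (X ∪ Z).card ≤ m := by have := card_union_le X Z; omega
    obtain ⟨δ', rfl⟩ : ∃ δ', δ = δ' + 4 := ⟨δ - 4, by omega⟩
    have e3 : (2 * m) * (9 * m) ≤ (5 * (L1.card + L2.card)) * (10 * δ') :=
      Nat.mul_le_mul (by omega) (by omega)
    have e4 : (100 * (X ∪ Z).card) * (δ' + 4) ≤ m * m := Nat.mul_le_mul e2 hδm
    nlinarith
  rcases Z.eq_empty_or_nonempty with he | ⟨z, hz⟩
  · rw [he, card_empty]; exact hlt
  by_contra hcon
  have hcY : Core G m (m / 50) Y := ⟨hY, fun q hq => by have := dY q hq; omega⟩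
  obtain ⟨hzA, hzS, s0, hs0, ha0⟩ := mem_bd.1 hz
  have hav : ∀ w, ∃ p ∈ S.filter (fun s => G.Adj s z), ∃ r ∈ Y, ∃ T, T ⊆ S ∧ PS G p r T ∧ w ∉ T := by
    intro w
    by_contra hcon
    push Not at hcon
    have hno : ∀ s ∈ reach G (S.erase w) Y, ¬ G.Adj s z := by
      intro s hs ha
      obtain ⟨h1, r, hr, T, s1, p1⟩ := mem_filter.1 hs
      exact (mem_erase.1 (s1 (hcon s (mem_filter.2 ⟨(mem_erase.1 h1).2, ha⟩) r hr T
        (s1.trans (erase_subset _ _)) p1.symm))).1 rfl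
    obtain ⟨r, hr, hrw⟩ := exists_mem_notMem_of_card_lt_card (s := {w}) (t := Y)
      (by rw [card_singleton]; omega)
    rw [mem_singleton] at hrw
    have hsub : reach G (S.erase w) Y ⊆ S := (filter_subset _ _).trans (erase_subset _ _)
    have := hmin _ (ssubset_iff_of_subset hsub |>.2 ⟨s0, hs0, fun hh => hno s0 hh ha0⟩)
      ⟨r, mem_sdiff.2 ⟨mem_reach_self hr (mem_erase.2 ⟨hrw, (mem_sdiff.1 hr).1⟩),
        (mem_sdiff.1 hr).2⟩⟩
    have h2 := bd_reach (G := G) (A := A) (Ω := S.erase w) (P := Y) (w := w) (by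
      intro s hs t ht ha
      by_cases htw : t = w
      · exact Or.inr htw
      · refine Or.inl (mem_erase.2 ⟨htw, ?_⟩)
        by_contra htS
        have := card_le_one.1 hbd t (mem_bd.2 ⟨ht, htS, s, hsub hs, ha⟩) z hz
        exact hno s hs (this ▸ ha))
    omega
  obtain ⟨L1, L2, hD⟩ := menger2 hav
  obtain ⟨a1, b1, a2, b2, T1, T2, h1, h2, h3, h4, h5, h6, h7, h8, h9, i1, i2⟩ := hD.trim
  have hc : ∀ (T : Finset V) (y : V), T ⊆ S → (∀ a ∈ T, a ∈ Y → a = y) → T.card ≤ X.card + 1 := by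
    intro T y hT hi
    have : T ⊆ insert y X := by
      intro a ha
      by_cases haX : a ∈ X
      · exact mem_insert_of_mem haX
      · exact mem_insert.2 (Or.inl (hi a ha (mem_sdiff.2 ⟨hT ha, haX⟩)))
    exact (card_le_card this).trans (card_insert_le _ _)
  have c1 := hc T1 b1 h7 i1
  have c2 := hc T2 b2 h8 i2
  have hz2 : z ∉ T2 := fun hh => hzS (h8 hh)
  have hd : Disjoint T1 (insert z T2) := disjoint_insert_right.2 ⟨fun hh => hzS (h7 hh), h9⟩
  have pN := h5.symm.joinE (mem_filter.1 h1).2 (PS.cons (mem_filter.1 h2).2.symm hz2 h6) hd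
  refine hC (hcY.close pN h3 h4 (fun e => disjoint_left.1 h9 h5.right_mem (e ▸ h6.right_mem))
    ?_ ?_)
  · have : insert z Y ⊆ T1 ∪ insert z T2 ∪ Y :=
      insert_subset (mem_union_left _ (mem_union_right _ (mem_insert_self _ _))) subset_union_right
    have h' := card_le_card this
    rw [card_insert_of_notMem (fun hh => hzS (mem_sdiff.1 hh).1), ← hYd] at h'
    omega
  · rw [card_union_of_disjoint hd, card_insert_of_notMem hz2]; omega

theorem Par.claim {m b h d u hi g2 k D : ℕ} (P : Par m b h d u hi g2 k D) (hm : Even m)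
    (hC : ¬ HasC G m) (hm0 : 10000 ≤ m) {δ N : ℕ} (hδ : 999 * m ≤ 1000 * δ) (hδm : δ ≤ m)
    (hN : 300 * N ≤ m ^ 2) (hNb : N ≤ 2 ^ b) :
    ∀ (n : ℕ) (A X : Finset V), A.card = n → A.Nonempty → X ⊆ A →
      (∀ v ∈ A \ X, δ ≤ deg G A v) → X.card * δ + A.card ≤ N →
      ∃ i, i * δ + 1 ≤ A.card ∧ A.card ≤ i * (m - 1) + X.card := by
  intro n
  induction n using Nat.strong_induction_on with
  | _ n ih =>
  intro A X hn hne hXA hdeg hXN
  rcases (A \ X).eq_empty_or_nonempty with he | hY0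
  · exact ⟨0, by simpa using hne, by
      simpa using card_le_card (sdiff_eq_empty_iff_subset.1 he)⟩
  obtain ⟨S, hS, hmin⟩ := exists_min_image
    (A.powerset.filter (fun S => (S \ X).Nonempty ∧ (bd G A S).card ≤ 1)) card
    ⟨A, mem_filter.2 ⟨mem_powerset_self _, hY0, by simp [bd]⟩⟩
  rw [mem_filter, mem_powerset] at hS
  obtain ⟨hSA, hY, hbd⟩ := hS
  have hX : 2997 * X.card ≤ 10 * m := by
    have e1 : X.card * (999 * m) ≤ X.card * (1000 * δ) := Nat.mul_le_mul_left _ hδ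
    apply Nat.le_of_mul_le_mul_left _ (show 0 < m by omega)
    nlinarith
  have hup := P.endblock hm hC hm0 hδ hδm hSA (by omega) hdeg hX (by omega) hY hbd (by
    intro S' hS' hY'
    by_contra hcon
    have := hmin S' (mem_filter.2 ⟨mem_powerset.2 (hS'.subset.trans hSA), hY', by omega⟩)
    have := card_lt_card hS'
    omega)
  have hlo : δ + 1 ≤ S.card + (bd G A S).card := by
    obtain ⟨y, hy⟩ := hY
    have a1 := (hdeg y (sdiff_subset_sdiff hSA (Subset.refl _) hy)).trans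
      (deg_bd (mem_sdiff.1 hy).1)
    have a2 := deg_lt_card (G := G) (mem_union_left (bd G A S) (mem_sdiff.1 hy).1)
    have a3 := card_union_le S (bd G A S)
    omega
  have c1 : (A \ S).card + S.card = A.card := card_sdiff_add_card_eq_card hSA
  have c2 := card_sdiff_add_card_inter S X
  have c3 := card_sdiff_add_card_inter X S
  rw [inter_comm] at c3
  have hZ : bd G A S ⊆ A \ S := filter_subset _ _
  rcases (A \ S).eq_empty_or_nonempty with he | hne'
  · have := card_le_card hZ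
    rw [he, card_empty] at this c1
    exact ⟨1, by omega, by omega⟩
  have c4 := card_union_le (X \ S) (bd G A S)
  obtain ⟨i, h1, h2⟩ := ih (A \ S).card (by omega) (A \ S) (X \ S ∪ bd G A S) rfl hne'
    (union_subset (sdiff_subset_sdiff hXA (Subset.refl _)) hZ) (by
      intro v hv
      simp only [mem_sdiff, mem_union, not_or, not_and, not_not] at hv
      refine (hdeg v (mem_sdiff.2 ⟨hv.1.1, fun hh => hv.1.2 (hv.2.1 hh)⟩)).trans (card_le_card ?_)
      intro w hw
      rw [mem_filter] at hw ⊢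
      exact ⟨mem_sdiff.2 ⟨hw.1, fun hh => hv.2.2 (mem_bd.2 ⟨hv.1.1, hv.1.2, w, hh, hw.2.symm⟩)⟩,
        hw.2⟩) (by
      have : (X \ S ∪ bd G A S).card * δ ≤ (X.card + 1) * δ := Nat.mul_le_mul_right _ (by omega)
      rw [add_mul] at this
      omega)
  refine ⟨i + 1, ?_, ?_⟩ <;> rw [add_mul] <;> omega

theorem window_of_minDeg [Fintype V] [Nonempty V] {m b δ : ℕ} (hb : 1 ≤ b)
    (hmb : 10 ^ 40 * b ^ 8 ≤ m) (hm : Even m) (hV : Fintype.card V ≤ 2 ^ b)
    (hN : 300 * Fintype.card V ≤ m ^ 2) (hδ : 999 * m ≤ 1000 * δ) (hδm : δ ≤ m)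
    (hdeg : ∀ v, δ ≤ deg G univ v) (hC : ¬ HasC G m) :
    ∃ i, i * δ + 1 ≤ Fintype.card V ∧ Fintype.card V ≤ i * (m - 1) := by
  obtain ⟨h, d, u, hi, g2, k, D, P⟩ := exists_par b m hb hmb
  have h8 : 1 ≤ b ^ 8 := Nat.one_le_pow _ _ hb
  simpa using P.claim hm hC (by omega) hδ hδm hN hV _ univ ∅ rfl univ_nonempty (empty_subset _)
    (fun v _ => hdeg v) (by simp)

end RCS
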